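import Mathlib

set_option autoImplicit false

namespace Pool.Agent.MP_8507d5_co

open Finset Pointwise

variable {G : Type*} [AddCommGroup G] [Fintype G] [DecidableEq G]

/-- `X` has at least `k` elements and `X + B` misses at least `k` elements. -/
def Feas (B : Finset G) (k : ℕ) (X : Finset G) : Prop :=
  k ≤ X.card ∧ (X + B).card + k ≤ Fintype.card G

/-- `X` is a `k`-atom of `B`. -/
structure IsAtom (B : Finset G) (k : ℕ) (X : Finset G) : Prop where
  feas : Feas B k X
  min : ∀ Y, Feas B k Y → (X + B).card + Y.card ≤ (Y + B).card + X.card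
  small : ∀ Y, Feas B k Y → (Y + B).card + X.card ≤ (X + B).card + Y.card → X.card ≤ Y.card

theorem exists_atom (B : Finset G) (k : ℕ) (h : ∃ X, Feas B k X) : ∃ X, IsAtom B k X := by
  classical
  set n := Fintype.card G with hn
  let F : Finset (Finset G) := univ.filter (fun X => Feas B k X)
  have hF : F.Nonempty := by
    obtain ⟨X, hX⟩ := h
    exact ⟨X, by simp [F, hX]⟩
  have hXn : ∀ X : Finset G, X.card ≤ n := fun X => card_le_univ X
  obtain ⟨X, hX, hmin⟩ := Finset.exists_min_image F
    (fun X => ((X + B).card + (n - X.card)) * (n + 1) + X.card) hF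
  have hXF : Feas B k X := (Finset.mem_filter.mp hX).2
  refine ⟨X, hXF, ?_, ?_⟩
  · intro Y hY
    have h1 := hmin Y (by simp [F, hY])
    by_contra hcon
    push Not at hcon
    have hx := hXn X
    have hy := hXn Y
    have h2 : (Y + B).card + (n - Y.card) + 1 ≤ (X + B).card + (n - X.card) := by omega
    have h3 : ((Y + B).card + (n - Y.card) + 1) * (n + 1) ≤
        ((X + B).card + (n - X.card)) * (n + 1) := Nat.mul_le_mul_right _ h2
    nlinarith
  · intro Y hY h0
    have h1 := hmin Y (by simp [F, hY])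
    have hx := hXn X
    have hy := hXn Y
    have h2 : (Y + B).card + (n - Y.card) ≤ (X + B).card + (n - X.card) := by omega
    have h3 : ((Y + B).card + (n - Y.card)) * (n + 1) ≤
        ((X + B).card + (n - X.card)) * (n + 1) := Nat.mul_le_mul_right _ h2
    omega

theorem dual_feas (B : Finset G) (k : ℕ) (X : Finset G) (hX : Feas B k X) :
    Feas B k (-(univ \ (X + B))) ∧
      (-(univ \ (X + B)) + B).card + X.card ≤ (X + B).card + (-(univ \ (X + B))).card ∧
      (-(univ \ (X + B))).card + (X + B).card = Fintype.card G := by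
  have hc : (-(univ \ (X + B))).card + (X + B).card = Fintype.card G := by
    rw [Finset.card_neg, Finset.card_sdiff_of_subset (Finset.subset_univ _), Finset.card_univ]
    have := card_le_univ (X + B)
    omega
  have hsub : (-(univ \ (X + B)) + B) ⊆ univ \ (-X) := by
    intro z hz
    rw [Finset.mem_add] at hz
    obtain ⟨y, hy, b, hb, rfl⟩ := hz
    rw [Finset.mem_neg] at hy
    obtain ⟨w, hw, rfl⟩ := hy
    rw [Finset.mem_sdiff] at hw ⊢
    refine ⟨Finset.mem_univ _, fun h => hw.2 ?_⟩
    rw [Finset.mem_neg] at h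
    obtain ⟨x, hx, hxe⟩ := h
    rw [Finset.mem_add]
    refine ⟨x, hx, b, hb, ?_⟩
    have : -x = -w + b := hxe
    have h2 : x = w - b := by
      have := congrArg Neg.neg this
      simp only [neg_neg, neg_add] at this
      rw [this]; abel
    rw [h2]; abel
  have hcs : (-(univ \ (X + B)) + B).card + X.card ≤ Fintype.card G := by
    have h1 := Finset.card_le_card hsub
    rw [Finset.card_sdiff_of_subset (Finset.subset_univ _), Finset.card_univ, Finset.card_neg] at h1
    have := card_le_univ X
    omega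
  refine ⟨⟨?_, ?_⟩, ?_, hc⟩
  · have := hX.2; omega
  · have := hX.1; omega
  · omega

theorem IsAtom.translate {B : Finset G} {k : ℕ} {X : Finset G} (hX : IsAtom B k X) (g : G) :
    IsAtom B k (g +ᵥ X) := by
  have h1 : ((g +ᵥ X) + B).card = (X + B).card := by
    rw [vadd_add_assoc, Finset.card_vadd_finset]
  have h2 : (g +ᵥ X).card = X.card := Finset.card_vadd_finset _ _
  refine ⟨⟨?_, ?_⟩, ?_, ?_⟩
  · rw [h2]; exact hX.feas.1
  · rw [h1]; exact hX.feas.2
  · intro Y hY; rw [h1, h2]; exact hX.min Y hY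
  · intro Y hY; rw [h1, h2]; exact hX.small Y hY

/-- The intersection property of atoms. -/
theorem IsAtom.inter {B : Finset G} {k : ℕ} {X : Finset G} (hX : IsAtom B k X) (g : G)
    (hk : k ≤ (X ∩ (g +ᵥ X)).card) : g +ᵥ X = X := by
  set Y := g +ᵥ X with hY
  have h1 : (Y + B).card = (X + B).card := by
    rw [hY, vadd_add_assoc, Finset.card_vadd_finset]
  have h2 : Y.card = X.card := Finset.card_vadd_finset _ _
  by_contra hne
  have hI : (X ∩ Y).card < X.card := by
    apply Finset.card_lt_card
    refine ⟨Finset.inter_subset_left, fun h => hne ?_⟩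
    have : X ⊆ Y := fun x hx => (Finset.mem_inter.mp (h hx)).2
    exact (Finset.eq_of_subset_of_card_le this (by rw [h2])).symm
  have hIU : (X ∩ Y).card + (X ∪ Y).card = X.card + Y.card := by
    have := Finset.card_union_add_card_inter X Y
    omega
  have hsub1 : (X ∩ Y) + B ⊆ (X + B) ∩ (Y + B) := by
    intro z hz
    rw [Finset.mem_add] at hz
    obtain ⟨x, hx, b, hb, rfl⟩ := hz
    rw [Finset.mem_inter] at hx ⊢
    exact ⟨Finset.add_mem_add hx.1 hb, Finset.add_mem_add hx.2 hb⟩
  have hU : (X ∪ Y) + B = (X + B) ∪ (Y + B) := Finset.union_add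
  have hsum : ((X ∩ Y) + B).card + ((X ∪ Y) + B).card ≤ (X + B).card + (Y + B).card := by
    rw [hU]
    have h3 := Finset.card_le_card hsub1
    have h4 := Finset.card_union_add_card_inter (X + B) (Y + B)
    omega
  have hIfeas : Feas B k (X ∩ Y) := by
    refine ⟨hk, ?_⟩
    have h3 : ((X ∩ Y) + B).card ≤ (X + B).card :=
      Finset.card_le_card (Finset.add_subset_add_right Finset.inter_subset_left)
    have := hX.feas.2
    omega
  have hnot : ¬ ((X ∩ Y + B).card + X.card ≤ (X + B).card + (X ∩ Y).card) := by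
    intro h
    have := hX.small _ hIfeas h
    omega
  obtain ⟨hd1, hd2, hd3⟩ := dual_feas B k X hX.feas
  have hd4 := hX.small _ hd1 (by omega)
  have hUk : k ≤ (X ∪ Y).card := by omega
  have hUnot : ¬ Feas B k (X ∪ Y) := by
    intro h
    have := hX.min _ h
    omega
  have : Fintype.card G < (X ∪ Y + B).card + k := by
    by_contra hcon
    exact hUnot ⟨hUk, by omega⟩
  omega

/-- A `1`-atom containing `0` is a subgroup. -/
theorem exists_subgroup_atom (B : Finset G) (h : ∃ X, Feas B 1 X) :
    ∃ N : AddSubgroup G, ∃ X : Finset G, (∀ x, x ∈ X ↔ x ∈ N) ∧ IsAtom B 1 X := by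
  obtain ⟨X, hX⟩ := exists_atom B 1 h
  have hne : X.Nonempty := Finset.card_pos.mp (lt_of_lt_of_le one_pos hX.feas.1)
  obtain ⟨x₀, hx₀⟩ := hne
  set A := (-x₀) +ᵥ X with hA
  have hAt : IsAtom B 1 A := hX.translate _
  have h0 : (0 : G) ∈ A := by
    rw [hA, Finset.mem_vadd_finset]
    exact ⟨x₀, hx₀, by simp⟩
  have key : ∀ x ∈ A, (-x) +ᵥ A = A := by
    intro x hx
    apply hAt.inter
    rw [Nat.succ_le_iff, Finset.card_pos]
    refine ⟨0, Finset.mem_inter.mpr ⟨h0, ?_⟩⟩
    rw [Finset.mem_vadd_finset]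
    exact ⟨x, hx, by simp⟩
  have hneg : ∀ x ∈ A, -x ∈ A := by
    intro x hx
    rw [← key x hx, Finset.mem_vadd_finset]
    exact ⟨0, h0, by simp⟩
  have hadd : ∀ x ∈ A, ∀ y ∈ A, x + y ∈ A := by
    intro x hx y hy
    have h1 := key (-x) (hneg x hx)
    rw [neg_neg] at h1
    rw [← h1, Finset.mem_vadd_finset]
    exact ⟨y, hy, rfl⟩
  exact ⟨{ carrier := {x | x ∈ A}
           zero_mem' := h0
           add_mem' := fun {x y} hx hy => hadd x hx y hy
           neg_mem' := fun {x} hx => hneg x hx }, A, fun x => Iff.rfl, hAt⟩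

end Pool.Agent.MP_8507d5_co
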