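import Pool.Agent.MP_8507d5_co.Structure

set_option autoImplicit false

namespace Pool.Agent.MP_8507d5_co

open Finset Pointwise

variable {G : Type*} [AddCommGroup G] [DecidableEq G]

/-- The `j`-fold sumset of a finite set. -/
def nf (A : Finset G) : ℕ → Finset G
  | 0 => {0}
  | (j + 1) => nf A j + A

theorem mem_nf (A : Finset G) (j : ℕ) (x : G) :
    x ∈ nf A j ↔ ∃ f : Fin j → G, (∀ i, f i ∈ A) ∧ ∑ i, f i = x := by
  induction j generalizing x with
  | zero =>
    simp only [nf, Finset.mem_singleton, Finset.univ_eq_empty, Finset.sum_empty]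
    constructor
    · rintro rfl; exact ⟨fun i => 0, fun i => i.elim0, rfl⟩
    · rintro ⟨_, _, h⟩; exact h.symm
  | succ j ih =>
    simp only [nf, Finset.mem_add]
    constructor
    · rintro ⟨y, hy, a, ha, rfl⟩
      obtain ⟨f, hf, rfl⟩ := (ih y).mp hy
      refine ⟨Fin.snoc f a, ?_, ?_⟩
      · intro i
        refine Fin.lastCases ?_ (fun i => ?_) i
        · rw [Fin.snoc_last]; exact ha
        · rw [Fin.snoc_castSucc]; exact hf i
      · rw [Fin.sum_univ_castSucc]
        simp [Fin.snoc_castSucc, Fin.snoc_last]
    · rintro ⟨f, hf, rfl⟩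
      rw [Fin.sum_univ_castSucc]
      refine ⟨_, (ih _).mpr ⟨fun i => f i.castSucc, fun i => hf _, rfl⟩, f (Fin.last j), hf _, rfl⟩

theorem nf_mono_succ (A : Finset G) (h0 : (0 : G) ∈ A) (j : ℕ) : nf A j ⊆ nf A (j + 1) := by
  intro x hx
  rw [nf, Finset.mem_add]
  exact ⟨x, hx, 0, h0, by simp⟩

theorem nf_mono (A : Finset G) (h0 : (0 : G) ∈ A) {i j : ℕ} (hij : i ≤ j) : nf A i ⊆ nf A j := by
  induction hij with
  | refl => exact fun _ h => h
  | step _ ih => exact fun _ h => nf_mono_succ A h0 _ (ih h)

theorem nf_one (A : Finset G) : nf A 1 = A := by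
  rw [nf, nf, Finset.singleton_add, zero_vadd]

theorem nf_translate (A : Finset G) (c : G) (j : ℕ) : nf (c +ᵥ A) j = (j • c) +ᵥ nf A j := by
  induction j with
  | zero => simp [nf]
  | succ j ih =>
    rw [nf, nf, ih]
    ext x
    simp only [Finset.mem_add, Finset.mem_vadd_finset, vadd_eq_add]
    constructor
    · rintro ⟨_, ⟨y, hy, rfl⟩, _, ⟨a, ha, rfl⟩, rfl⟩
      exact ⟨y + a, ⟨y, hy, a, ha, rfl⟩, by rw [succ_nsmul]; abel⟩
    · rintro ⟨_, ⟨y, hy, a, ha, rfl⟩, rfl⟩
      exact ⟨j • c + y, ⟨y, hy, rfl⟩, c + a, ⟨a, ha, rfl⟩, by rw [succ_nsmul]; abel⟩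

/-- Kemperman–Scherk: if `0` has the unique representation `0 + 0` then `|A + B| ≥ |A| + |B| - 1`. -/
theorem kemperman_scherk (A B : Finset G) (hA : (0 : G) ∈ A) (hB : (0 : G) ∈ B)
    (hu : ∀ a ∈ A, ∀ b ∈ B, a + b = 0 → a = 0 ∧ b = 0) :
    A.card + B.card ≤ (A + B).card + 1 := by
  classical
  induction hn : B.card using Nat.strong_induction_on generalizing A B with
  | _ n ih =>
    by_cases hex : ∃ e ∈ A, ∃ b ∈ B, b + e ∉ A
    · obtain ⟨e, he, b, hb, hbe⟩ := hex
      set A' := A ∪ (e +ᵥ B) with hA'
      set B' := B.filter (fun b => b + e ∈ A) with hB'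
      have hB'card : B'.card = (A ∩ (e +ᵥ B)).card := by
        apply Finset.card_bij (fun b _ => e + b)
        · intro a ha
          rw [hB', Finset.mem_filter] at ha
          rw [Finset.mem_inter, Finset.mem_vadd_finset]
          exact ⟨by rw [add_comm]; exact ha.2, a, ha.1, rfl⟩
        · intro a _ b _ h; exact add_left_cancel h
        · intro y hy
          rw [Finset.mem_inter, Finset.mem_vadd_finset] at hy
          obtain ⟨h1, z, hz, rfl⟩ := hy
          refine ⟨z, ?_, rfl⟩
          rw [hB', Finset.mem_filter]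
          exact ⟨hz, by rw [add_comm]; exact h1⟩
      have hsum : A'.card + B'.card = A.card + B.card := by
        rw [hB'card, hA', Finset.card_union_add_card_inter, Finset.card_vadd_finset]
      have hlt : B'.card < B.card := by
        apply Finset.card_lt_card
        refine ⟨Finset.filter_subset _ _, fun h => ?_⟩
        exact hbe (Finset.mem_filter.mp (h hb)).2
      have hsub : A' + B' ⊆ A + B := by
        intro x hx
        rw [Finset.mem_add] at hx ⊢
        obtain ⟨a', ha', b', hb', rfl⟩ := hx
        rw [hB', Finset.mem_filter] at hb'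
        rw [hA', Finset.mem_union] at ha'
        rcases ha' with ha' | ha'
        · exact ⟨a', ha', b', hb'.1, rfl⟩
        · obtain ⟨c, hc, rfl⟩ := Finset.mem_vadd_finset.mp ha'
          refine ⟨b' + e, hb'.2, c, hc, ?_⟩
          simp only [vadd_eq_add]; abel
      have h0A' : (0 : G) ∈ A' := by rw [hA', Finset.mem_union]; exact Or.inl hA
      have h0B' : (0 : G) ∈ B' := by
        rw [hB', Finset.mem_filter]; exact ⟨hB, by simpa using he⟩
      have hu' : ∀ a ∈ A', ∀ b ∈ B', a + b = 0 → a = 0 ∧ b = 0 := by
        intro a' ha' b' hb' hab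
        rw [hB', Finset.mem_filter] at hb'
        rw [hA', Finset.mem_union] at ha'
        rcases ha' with ha' | ha'
        · exact hu a' ha' b' hb'.1 hab
        · obtain ⟨c, hc, rfl⟩ := Finset.mem_vadd_finset.mp ha'
          simp only [vadd_eq_add] at hab ⊢
          have h1 := hu (b' + e) hb'.2 c hc (by rw [← hab]; abel)
          have h2 := hu e he b' hb'.1 (by rw [add_comm]; exact h1.1)
          refine ⟨?_, h2.2⟩
          rw [h1.2, h2.1, add_zero]
      have h1 := ih B'.card (by omega) A' B' h0A' h0B' hu' rfl
      have h2 := Finset.card_le_card hsub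
      omega
    · push Not at hex
      by_cases hb : ∃ b ∈ B, b ≠ 0
      · exfalso
        obtain ⟨b, hb, hb0⟩ := hb
        have himg : A.image (fun a => b + a) = A := by
          apply Finset.eq_of_subset_of_card_le
          · intro x hx
            rw [Finset.mem_image] at hx
            obtain ⟨a, ha, rfl⟩ := hx
            exact hex a ha b hb
          · rw [Finset.card_image_of_injective _ (add_right_injective b)]
        rw [← himg, Finset.mem_image] at hA
        obtain ⟨a, ha, hab⟩ := hA
        exact hb0 (hu a ha b hb (by rw [add_comm]; exact hab)).2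
      · push Not at hb
        have hB1 : B = {0} := by
          ext x; rw [Finset.mem_singleton]
          exact ⟨fun hx => hb x hx, fun hx => hx ▸ hB⟩
        subst hB1
        rw [← hn]
        simp

/-- If the only sum of `h` elements of `P` equal to `0` is the trivial one, then
`h (|P| - 1) + 1 ≤ |hP|`. -/
theorem unique_fold (P : Finset G) (h : ℕ) (h0 : (0 : G) ∈ P)
    (hZ : ∀ f : Fin h → G, (∀ i, f i ∈ P) → ∑ i, f i = 0 → ∀ i, f i = 0) :
    ∀ j ≤ h, j * P.card + 1 ≤ (nf P j).card + j := by
  intro j
  induction j with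
  | zero => intro _; simp [nf]
  | succ j ih =>
    intro hj
    have h1 := ih (by omega)
    have h2 := kemperman_scherk (nf P j) P (nf_mono P h0 (Nat.zero_le j) (by simp [nf])) h0 (by
      intro x hx p hp hxp
      obtain ⟨f, hf, rfl⟩ := (mem_nf P j x).mp hx
      -- extend by zeros
      let F : Fin h → G := fun i =>
        if hi : (i : ℕ) < j then f ⟨i, hi⟩ else if (i : ℕ) = j then p else 0
      have hFP : ∀ i, F i ∈ P := by
        intro i
        simp only [F]
        split_ifs
        · exact hf _
        · exact hp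
        · exact h0
      have hFsum : ∑ i, F i = (∑ i, f i) + p := by
        have e1 : ∑ i, F i = ∑ i ∈ Finset.range h,
            (if hi : i < j then f ⟨i, hi⟩ else if i = j then p else 0) := by
          rw [Finset.sum_range]
        rw [e1]
        have e2 : Finset.range (j + 1) ⊆ Finset.range h := by
          intro x hx; rw [Finset.mem_range] at hx ⊢; omega
        rw [← Finset.sum_subset e2]
        · rw [Finset.sum_range_succ]
          congr 1
          · rw [Finset.sum_range]
            apply Finset.sum_congr rfl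
            intro i _
            rw [dif_pos i.2]
          · rw [dif_neg (lt_irrefl j), if_pos rfl]
        · intro x _ hx
          rw [Finset.mem_range, not_lt] at hx
          rw [dif_neg (by omega), if_neg (by omega)]
      have hall := hZ F hFP (by rw [hFsum]; exact hxp)
      have hp0 : p = 0 := by
        have := hall ⟨j, by omega⟩
        simpa [F] using this
      refine ⟨?_, hp0⟩
      rw [hp0, add_zero] at hxp
      exact hxp)
    rw [nf]
    have : (j + 1) * P.card = j * P.card + P.card := by ring
    omega

end Pool.Agent.MP_8507d5_co
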