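import Pool.Agent.MP_8507d5_co.Folds

set_option autoImplicit false

namespace Pool.Agent.MP_8507d5_co

open Finset Pointwise

universe u

/-- `⌊(d-2)/h⌋ + 1`, written without negative numbers (for `2 ≤ h`, `1 ≤ d`). -/
def kk (d h : ℕ) : ℕ := (d + h - 2) / h

/-- `max (⌊(d-2)/h⌋ + 1) (n/d)` over the divisors `d` of `n`. -/
def vv (n h : ℕ) : ℕ := n.divisors.sup (fun d => kk d h * (n / d))

theorem kk_upper (d h : ℕ) : h * kk d h ≤ d + h - 2 := Nat.mul_div_le _ _

theorem kk_lower (d h : ℕ) (hh : 2 ≤ h) : d ≤ h * kk d h + 1 := by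
  have h1 : (d + h - 2) < h * ((d + h - 2) / h + 1) := by
    have := Nat.lt_mul_div_succ (d + h - 2) (show 0 < h by omega)
    exact this
  rw [mul_add, mul_one] at h1
  unfold kk
  omega

theorem kk_pos (d h : ℕ) (hh : 2 ≤ h) (hd : 2 ≤ d) : 1 ≤ kk d h := by
  unfold kk
  rw [Nat.le_div_iff_mul_le (by omega)]
  omega

theorem le_vv (n h d : ℕ) (hn : 0 < n) (hd : d ∣ n) : kk d h * (n / d) ≤ vv n h :=
  Finset.le_sup (f := fun d => kk d h * (n / d)) (Nat.mem_divisors.mpr ⟨hd, hn.ne'⟩)

theorem exists_vv (n h : ℕ) (hn : 0 < n) : ∃ d, d ∣ n ∧ vv n h = kk d h * (n / d) := by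
  obtain ⟨d, hd, h1⟩ := Finset.exists_mem_eq_sup n.divisors
    ⟨1, Nat.one_mem_divisors.mpr hn.ne'⟩ (fun d => kk d h * (n / d))
  exact ⟨d, (Nat.mem_divisors.mp hd).1, h1⟩

theorem vv_mono (e l h : ℕ) (he : 0 < e) (hl : 0 < l) : vv l h * e ≤ vv (e * l) h := by
  obtain ⟨d, hd, h1⟩ := exists_vv l h hl
  rw [h1]
  have h2 := le_vv (e * l) h d (Nat.mul_pos he hl) (Dvd.dvd.mul_left hd e)
  rw [Nat.mul_div_assoc e hd] at h2
  calc kk d h * (l / d) * e = kk d h * (e * (l / d)) := by ring
    _ ≤ _ := h2

/-- The extremal sets of arithmetic progression type. -/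
def APType (h : ℕ) {G : Type u} [AddCommGroup G] (A : Set G) : Prop :=
  ∃ (H : AddSubgroup G) (x g : G), (∀ y : G, ∃ i : ℕ, y - i • g ∈ H) ∧
    kk H.index h * (Nat.card G / H.index) = vv (Nat.card G) h ∧
    ∀ y, y ∈ A ↔ ∃ i < kk H.index h, y - (x + i • g) ∈ H

theorem APType.translate {h : ℕ} {G : Type u} [AddCommGroup G] {A : Set G} (hA : APType h A)
    (c : G) : APType h {y | y - c ∈ A} := by
  obtain ⟨H, x, g, h1, h2, h3⟩ := hA
  refine ⟨H, x + c, g, h1, h2, ?_⟩
  intro y
  change (y - c ∈ A) ↔ _
  rw [h3]
  constructor
  · rintro ⟨i, hi, h4⟩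
    refine ⟨i, hi, ?_⟩
    have : y - (x + c + i • g) = y - c - (x + i • g) := by abel
    rw [this]; exact h4
  · rintro ⟨i, hi, h4⟩
    refine ⟨i, hi, ?_⟩
    have : y - c - (x + i • g) = y - (x + c + i • g) := by abel
    rw [this]; exact h4

/-- The inductive statement. -/
def Good (h : ℕ) (G : Type u) [AddCommGroup G] [Fintype G] [DecidableEq G] (A : Finset G) : Prop :=
  A.card ≤ vv (Fintype.card G) h ∧
    (A.card = vv (Fintype.card G) h → Fintype.card G < h * vv (Fintype.card G) h →
      APType h (A : Set G))

/-- Two sets in cosets of `N` with large total size sum to a full coset. -/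
theorem coset_sum {G : Type u} [AddCommGroup G] [DecidableEq G] (N : AddSubgroup G) (F : Finset G)
    (hF : ∀ x, x ∈ F ↔ x ∈ N) (S T : Finset G) (s t : G) (hS : ∀ x ∈ S, x - s ∈ N)
    (hT : ∀ x ∈ T, x - t ∈ N) (hST : F.card + 1 ≤ S.card + T.card) (r : G)
    (hr : r - (s + t) ∈ N) : ∃ u ∈ S, ∃ v ∈ T, u + v = r := by
  classical
  have h1 : S ⊆ s +ᵥ F := by
    intro x hx
    rw [Finset.mem_vadd_finset]
    exact ⟨x - s, (hF _).mpr (hS x hx), by simp⟩
  have h2 : T.image (fun v => r - v) ⊆ s +ᵥ F := by
    intro x hx
    rw [Finset.mem_image] at hx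
    obtain ⟨v, hv, rfl⟩ := hx
    rw [Finset.mem_vadd_finset]
    refine ⟨r - v - s, (hF _).mpr ?_, by simp⟩
    have : r - v - s = (r - (s + t)) - (v - t) := by abel
    rw [this]; exact N.sub_mem hr (hT v hv)
  have h3 : (T.image (fun v => r - v)).card = T.card :=
    Finset.card_image_of_injective _ (fun a b hab => by simpa using hab)
  have h4 : (S ∩ T.image (fun v => r - v)).Nonempty := by
    by_contra hcon
    rw [Finset.not_nonempty_iff_eq_empty, ← Finset.disjoint_iff_inter_eq_empty] at hcon
    have h5 := Finset.card_union_of_disjoint hcon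
    have h6 := Finset.card_le_card (Finset.union_subset h1 h2)
    rw [Finset.card_vadd_finset] at h6
    omega
  obtain ⟨u, hu⟩ := h4
  rw [Finset.mem_inter, Finset.mem_image] at hu
  obtain ⟨hu1, v, hv, huv⟩ := hu
  exact ⟨u, hu1, v, hv, by rw [← huv]; abel⟩

/-- Adjusting two coordinates of a representation. -/
theorem adjust {G : Type u} [AddCommGroup G] {h : ℕ} (A : Finset G) (f : Fin h → G)
    (hf : ∀ i, f i ∈ A) (i j : Fin h) (hij : i ≠ j) (u v x : G) (hu : u ∈ A) (hv : v ∈ A)
    (huv : u + v = x - (∑ k, f k - f i - f j)) :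
    ∃ f' : Fin h → G, (∀ i, f' i ∈ A) ∧ ∑ k, f' k = x := by
  classical
  refine ⟨Function.update (Function.update f i u) j v, ?_, ?_⟩
  · intro k
    by_cases hk : k = j
    · subst hk; rw [Function.update_self]; exact hv
    · rw [Function.update_of_ne hk]
      by_cases hk' : k = i
      · subst hk'; rw [Function.update_self]; exact hu
      · rw [Function.update_of_ne hk']; exact hf k
  · rw [Finset.sum_update_of_mem (Finset.mem_univ _)]
    have h1 : ∑ k ∈ univ \ {j}, Function.update f i u k =
        u + ∑ k ∈ (univ \ {j}) \ {i}, f k :=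
      Finset.sum_update_of_mem (by simp [hij]) _ _
    rw [h1]
    have h2 : ∑ k, f k = f j + (f i + ∑ k ∈ (univ \ {j}) \ {i}, f k) := by
      rw [Finset.sum_eq_add_sum_sdiff_singleton_of_mem (Finset.mem_univ j),
        Finset.sum_eq_add_sum_sdiff_singleton_of_mem (s := univ \ {j}) (i := i)
          (by simp [hij])]
    rw [h2] at huv
    have h3 : v + (u + ∑ k ∈ (univ \ {j}) \ {i}, f k) =
        (u + v) + ∑ k ∈ (univ \ {j}) \ {i}, f k := by abel
    rw [h3, huv]; abel

/-- Analysis of the case `|N + A| < |N| + |A|`. -/
theorem quot_case (h : ℕ) (hh : 2 ≤ h) (G : Type u) [AddCommGroup G] [Fintype G] [DecidableEq G]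
    (ih : ∀ (K : Type u) [AddCommGroup K] [Fintype K] [DecidableEq K],
      Fintype.card K < Fintype.card G → ∀ A : Finset K, nf A h ≠ univ → Good h K A)
    (A : Finset G) (hA : nf A h ≠ univ)
    (N : AddSubgroup G) (F : Finset G) (hF : ∀ x, x ∈ F ↔ x ∈ N) (hF2 : 2 ≤ F.card)
    (hFn : F.card < Fintype.card G) (hFA : (F + A).card + 1 ≤ F.card + A.card) : Good h G A := by
  classical
  have : Fintype (G ⧸ N) := Fintype.ofFinite _
  have : Fintype N := Fintype.ofFinite _
  set φ : G →+ G ⧸ N := QuotientAddGroup.mk' N with hφ
  have hφsurj : Function.Surjective φ := QuotientAddGroup.mk'_surjective N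
  have hφN : ∀ x y : G, φ x = φ y ↔ x - y ∈ N := by
    intro x y
    rw [hφ, QuotientAddGroup.mk'_apply, QuotientAddGroup.mk'_apply, QuotientAddGroup.eq]
    constructor
    · intro h1
      have : x - y = -(-x + y) := by abel
      rw [this]; exact N.neg_mem h1
    · intro h1
      have : -x + y = -(x - y) := by abel
      rw [this]; exact N.neg_mem h1
  set l := F.card with hl
  set e := Fintype.card (G ⧸ N) with he
  have hlN : Fintype.card N = l := by
    rw [← Nat.card_eq_fintype_card]
    exact Nat.subtype_card F hF
  have hn : Fintype.card G = e * l := by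
    have := AddSubgroup.card_eq_card_quotient_mul_card_addSubgroup N
    rw [Nat.card_eq_fintype_card, Nat.card_eq_fintype_card, Nat.card_eq_fintype_card, hlN] at this
    exact this
  have hl0 : 0 < l := by omega
  have he2 : 2 ≤ e := by
    by_contra hcon
    have : e ≤ 1 := by omega
    have h1 : e * l ≤ 1 * l := Nat.mul_le_mul_right _ this
    omega
  have hen : e < Fintype.card G := by
    rw [hn]; nlinarith
  have hln : l < Fintype.card G := hFn
  set fib : G ⧸ N → Finset G := fun q => A.filter (fun a => φ a = q) with hfib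
  set AQ : Finset (G ⧸ N) := A.image φ with hAQ
  have hfibmem : ∀ q a, a ∈ fib q ↔ a ∈ A ∧ φ a = q := fun q a => by
    rw [hfib]; exact Finset.mem_filter
  have hfibcoset : ∀ (q : G ⧸ N) (s : G), φ s = q → ∀ x ∈ fib q, x - s ∈ N := by
    intro q s hs x hx
    rw [← hφN, ((hfibmem q x).mp hx).2, hs]
  have hfibG : ∀ q : G ⧸ N, (univ.filter (fun x : G => φ x = q)).card = l := by
    intro q
    obtain ⟨s, hs⟩ := hφsurj q
    have : (univ.filter (fun x : G => φ x = q)) = s +ᵥ F := by
      ext x
      rw [Finset.mem_filter, Finset.mem_vadd_finset]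
      constructor
      · rintro ⟨_, hx⟩
        exact ⟨x - s, (hF _).mpr ((hφN x s).mp (by rw [hx, hs])), by simp⟩
      · rintro ⟨y, hy, rfl⟩
        refine ⟨Finset.mem_univ _, ?_⟩
        rw [← hs, hφN]
        simpa using (hF y).mp hy
    rw [this, Finset.card_vadd_finset]
  have hfible : ∀ q, (fib q).card ≤ l := by
    intro q
    rw [← hfibG q]
    apply Finset.card_le_card
    intro x hx
    rw [Finset.mem_filter]
    exact ⟨Finset.mem_univ _, ((hfibmem q x).mp hx).2⟩
  have hAcard : A.card = ∑ q ∈ AQ, (fib q).card :=
    Finset.card_eq_sum_card_image φ A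
  have hFAcard : (F + A).card = AQ.card * l := by
    have h1 : F + A = AQ.biUnion (fun q => univ.filter (fun x : G => φ x = q)) := by
      ext x
      rw [Finset.mem_add, Finset.mem_biUnion]
      constructor
      · rintro ⟨m, hm, a, ha, rfl⟩
        refine ⟨φ a, Finset.mem_image_of_mem _ ha, ?_⟩
        rw [Finset.mem_filter]
        refine ⟨Finset.mem_univ _, ?_⟩
        rw [hφN]
        simpa using (hF m).mp hm
      · rintro ⟨q, hq, hx⟩
        rw [Finset.mem_filter] at hx
        obtain ⟨a, ha, rfl⟩ := Finset.mem_image.mp hq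
        exact ⟨x - a, (hF _).mpr ((hφN x a).mp hx.2), a, ha, by simp⟩
    rw [h1, Finset.card_biUnion]
    · rw [Finset.sum_congr rfl (fun q _ => hfibG q), Finset.sum_const, smul_eq_mul]
    · intro q _ q' _ hqq
      rw [Function.onFun, Finset.disjoint_left]
      intro x hx hx'
      rw [Finset.mem_filter] at hx hx'
      exact hqq (hx.2.symm.trans hx'.2)
  have hAsub : A ⊆ F + A := by
    intro a ha
    rw [Finset.mem_add]
    exact ⟨0, (hF 0).mpr N.zero_mem, a, ha, by simp⟩
  have hAle : A.card ≤ AQ.card * l := by rw [← hFAcard]; exact Finset.card_le_card hAsub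
  have hpair : ∀ q ∈ AQ, ∀ q' ∈ AQ, q ≠ q' → l + 1 ≤ (fib q).card + (fib q').card := by
    intro q hq q' hq' hqq
    have h1 : ∑ r ∈ AQ, (l - (fib r).card) + A.card = AQ.card * l := by
      rw [hAcard, ← Finset.sum_add_distrib, ← smul_eq_mul, ← Finset.sum_const]
      apply Finset.sum_congr rfl
      intro r _
      have := hfible r
      omega
    have h2 : ∑ r ∈ ({q, q'} : Finset (G ⧸ N)), (l - (fib r).card) ≤
        ∑ r ∈ AQ, (l - (fib r).card) := by
      apply Finset.sum_le_sum_of_subset
      intro r hr
      rw [Finset.mem_insert, Finset.mem_singleton] at hr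
      rcases hr with rfl | rfl
      · exact hq
      · exact hq'
    rw [Finset.sum_pair hqq] at h2
    have h3 := hfible q
    have h4 := hfible q'
    omega
  have hvv1 : vv e h * l ≤ vv (Fintype.card G) h := by
    have := vv_mono l e h hl0 (by omega)
    rw [hn, mul_comm e l]; exact this
  have hvv2 : vv l h * e ≤ vv (Fintype.card G) h := by
    have := vv_mono e l h (by omega) hl0
    rw [hn]; exact this
  by_cases hQ : nf AQ h = univ
  · -- the quotient is covered
    have hg : ∃ g, g ∉ nf A h := by
      by_contra hcon
      push Not at hcon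
      exact hA (Finset.eq_univ_iff_forall.mpr hcon)
    obtain ⟨g, hg⟩ := hg
    have claimR : ∀ f : Fin h → G ⧸ N, (∀ k, f k ∈ AQ) → ∑ k, f k = φ g → ∀ i j, i ≠ j →
        (fib (f i)).card + (fib (f j)).card ≤ l := by
      intro f hf hsum i j hij
      by_contra hcon
      push Not at hcon
      have hlift : ∀ k, ∃ a ∈ A, φ a = f k := fun k => Finset.mem_image.mp (hf k)
      choose a haA haf using hlift
      set r := g - (∑ k, a k - a i - a j) with hr
      have hr' : r - (a i + a j) ∈ N := by
        rw [← hφN]
        rw [hr, map_sub, map_sub, map_sub, map_sum, map_add]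
        simp only [haf]
        rw [hsum]; abel
      obtain ⟨u, hu, v, hv, huv⟩ := coset_sum N F hF (fib (f i)) (fib (f j)) (a i) (a j)
        (hfibcoset _ _ (haf i)) (hfibcoset _ _ (haf j)) (by omega) r hr'
      apply hg
      rw [mem_nf]
      exact adjust A a haA i j hij u v g ((hfibmem _ _).mp hu).1 ((hfibmem _ _).mp hv).1
        (by rw [huv])
    have hconst : ∀ f : Fin h → G ⧸ N, (∀ k, f k ∈ AQ) → ∑ k, f k = φ g → ∀ i j, f i = f j := by
      intro f hf hsum i j
      by_contra hne
      have hij : i ≠ j := fun h => hne (by rw [h])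
      have h1 := claimR f hf hsum i j hij
      have h2 := hpair _ (hf i) _ (hf j) hne
      omega
    have hgQ : φ g ∈ nf AQ h := by rw [hQ]; exact Finset.mem_univ _
    obtain ⟨f₀, hf₀, hsum₀⟩ := (mem_nf _ _ _).mp hgQ
    have h01 : (⟨0, by omega⟩ : Fin h) ≠ ⟨1, by omega⟩ := by
      intro h; have := congrArg Fin.val h; simp at this
    set b := f₀ ⟨0, by omega⟩ with hb
    have hbAQ : b ∈ AQ := hf₀ _
    have hf₀b : ∀ k, f₀ k = b := fun k => hconst f₀ hf₀ hsum₀ _ _
    have hgb : φ g = h • b := by
      rw [← hsum₀, Finset.sum_congr rfl (fun k _ => hf₀b k), Finset.sum_const]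
      simp
    have hbsmall : 2 * (fib b).card ≤ l := by
      have h1 := claimR f₀ hf₀ hsum₀ _ _ h01
      rw [hf₀b, hf₀b] at h1
      omega
    have hallb : ∀ f : Fin h → G ⧸ N, (∀ k, f k ∈ AQ) → ∑ k, f k = φ g → ∀ i, f i = b := by
      intro f hf hsum i
      have h1 := claimR f hf hsum _ _ h01
      rw [hconst f hf hsum ⟨0, by omega⟩ i, hconst f hf hsum ⟨1, by omega⟩ i] at h1
      by_contra hne
      have h2 := hpair _ (hf i) _ hbAQ hne
      omega
    -- the translated image
    set P : Finset (G ⧸ N) := (-b) +ᵥ AQ with hP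
    have hPcard : P.card = AQ.card := Finset.card_vadd_finset _ _
    have h0P : (0 : G ⧸ N) ∈ P := by
      rw [hP, Finset.mem_vadd_finset]; exact ⟨b, hbAQ, by simp⟩
    have hZ : ∀ f : Fin h → G ⧸ N, (∀ i, f i ∈ P) → ∑ i, f i = 0 → ∀ i, f i = 0 := by
      intro f hf hsum i
      have h1 := hallb (fun k => b + f k) (by
        intro k
        obtain ⟨y, hy, hyk⟩ := Finset.mem_vadd_finset.mp (hf k)
        have : b + f k = y := by rw [← hyk]; simp
        rw [this]; exact hy) (by
        rw [Finset.sum_add_distrib, hsum, Finset.sum_const, hgb]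
        simp) i
      simpa using h1
    have hPh := unique_fold P h h0P hZ h (le_refl h)
    have hnfP : (nf P h).card ≤ e := card_le_univ _
    -- the fibre over `b`
    obtain ⟨a₀, ha₀, ha₀b⟩ := Finset.mem_image.mp hbAQ
    let A₀ : Finset N := univ.filter (fun x : N => (x : G) + a₀ ∈ A)
    have hA₀mem : ∀ x : N, x ∈ A₀ ↔ (x : G) + a₀ ∈ A := fun x => by simp [A₀]
    have hA₀card : A₀.card = (fib b).card := by
      apply Finset.card_bij (fun (x : N) _ => (x : G) + a₀)
      · intro x hx
        rw [hfibmem]
        refine ⟨(hA₀mem x).mp hx, ?_⟩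
        rw [← ha₀b, hφN]
        simp
      · intro x _ y _ h; exact Subtype.ext (add_right_cancel h)
      · intro y hy
        have h1 := hfibcoset b a₀ ha₀b y hy
        refine ⟨⟨y - a₀, h1⟩, (hA₀mem _).mpr ?_, by simp⟩
        simpa using ((hfibmem b y).mp hy).1
    have hgN : g - h • a₀ ∈ N := by
      rw [← hφN, map_nsmul, hgb, ha₀b]
    have hA₀nf : nf A₀ h ≠ univ := by
      intro hun
      have h1 : (⟨g - h • a₀, hgN⟩ : N) ∈ nf A₀ h := by rw [hun]; exact Finset.mem_univ _
      obtain ⟨f, hf, hsum⟩ := (mem_nf _ _ _).mp h1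
      apply hg
      rw [mem_nf]
      refine ⟨fun k => (f k : G) + a₀, fun k => (hA₀mem _).mp (hf k), ?_⟩
      rw [Finset.sum_add_distrib, Finset.sum_const]
      have h2 : ∑ k, (f k : G) = g - h • a₀ := by
        have := congrArg Subtype.val hsum
        rw [AddSubgroup.val_finsetSum] at this
        exact this
      rw [h2]; simp
    have hihN := (ih N (by rw [hlN]; exact hln) A₀ hA₀nf).1
    rw [hlN, hA₀card] at hihN
    have hAbound : A.card ≤ (AQ.card - 1) * l + (fib b).card := by
      rw [hAcard, ← Finset.add_sum_erase AQ _ hbAQ]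
      have h1 : ∑ q ∈ AQ.erase b, (fib q).card ≤ ∑ q ∈ AQ.erase b, l :=
        Finset.sum_le_sum (fun q _ => hfible q)
      rw [Finset.sum_const, smul_eq_mul, Finset.card_erase_of_mem hbAQ] at h1
      omega
    have hAQpos : 1 ≤ AQ.card := Finset.card_pos.mpr ⟨b, hbAQ⟩
    obtain ⟨p, hp⟩ := Nat.exists_eq_add_of_le hAQpos
    have hp1 : AQ.card - 1 = p := by omega
    rw [hp1] at hAbound
    have hpe : h * p + 1 ≤ e := by
      rw [hPcard, hp] at hPh
      have : h * (1 + p) = h + h * p := by ring
      omega
    set x := vv l h with hx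
    have hAx : A.card ≤ p * l + x := by omega
    have hkk1 := kk_lower (Fintype.card G) h hh
    have hkk2 : kk (Fintype.card G) h ≤ vv (Fintype.card G) h := by
      have := le_vv (Fintype.card G) h (Fintype.card G) (by omega) (dvd_refl _)
      rwa [Nat.div_self (by omega), mul_one] at this
    have hpl : h * (p * l) + l ≤ e * l := by
      calc h * (p * l) + l = (h * p + 1) * l := by ring
        _ ≤ e * l := Nat.mul_le_mul_right _ hpe
    constructor
    · rcases Nat.lt_or_ge (h * x) l with hc | hc
      · -- `h x < l`
        have h1 : h * (p * l + x) + 1 ≤ Fintype.card G := by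
          rw [hn, mul_add]; omega
        have h2 : h * A.card ≤ h * kk (Fintype.card G) h := by
          have h3 : h * A.card ≤ h * (p * l + x) := Nat.mul_le_mul_left _ hAx
          omega
        exact le_trans (Nat.le_of_mul_le_mul_left h2 (by omega)) hkk2
      · have h1 : p * l ≤ p * (h * x) := Nat.mul_le_mul_left _ hc
        have h2 : (h * p + 1) * x ≤ e * x := Nat.mul_le_mul_right _ hpe
        have h3 : p * (h * x) + x = (h * p + 1) * x := by ring
        have h4 : e * x = x * e := mul_comm _ _
        omega
    · intro hAv hlt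
      exfalso
      rcases Nat.lt_or_ge l (h * x) with hc | hc
      · have h1 : x * e ≤ p * l + x := by omega
        obtain ⟨e', he'⟩ := Nat.exists_eq_add_of_le he2
        have h2 : x * e = x * (1 + e') + x := by rw [he']; ring
        have h3 : x * (1 + e') ≤ p * l := by omega
        have h4 : h * (x * (1 + e')) ≤ h * (p * l) := Nat.mul_le_mul_left _ h3
        have h5 : h * (p * l) ≤ (1 + e') * l := by
          have : e * l = (1 + e') * l + l := by rw [he']; ring
          omega
        have h6 : (1 + e') * l < (1 + e') * (h * x) := by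
          apply Nat.mul_lt_mul_of_pos_left hc; omega
        have h7 : h * (x * (1 + e')) = (1 + e') * (h * x) := by ring
        omega
      · have h1 : h * A.card ≤ h * (p * l + x) := Nat.mul_le_mul_left _ hAx
        rw [mul_add] at h1
        rw [← hAv] at hlt
        omega
  · -- induction in the quotient
    obtain ⟨g1, g2⟩ := ih (G ⧸ N) hen AQ hQ
    rw [← he] at g1 g2
    constructor
    · calc A.card ≤ AQ.card * l := hAle
        _ ≤ vv e h * l := Nat.mul_le_mul_right _ g1
        _ ≤ _ := hvv1
    · intro hAv hlt
      have h1 : AQ.card * l ≤ vv e h * l := Nat.mul_le_mul_right _ g1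
      have h2 : AQ.card * l = vv e h * l := by omega
      have h3 : AQ.card = vv e h := Nat.eq_of_mul_eq_mul_right hl0 h2
      have h4 : F + A = A := by
        symm
        apply Finset.eq_of_subset_of_card_le hAsub
        rw [hFAcard]; omega
      have h5 : vv (Fintype.card G) h = vv e h * l := by omega
      have h6 : e < h * vv e h := by
        rw [hn, ← hn, h5] at hlt
        rw [hn] at hlt
        have : e * l < (h * vv e h) * l := by
          calc e * l < h * (vv e h * l) := hlt
            _ = (h * vv e h) * l := by ring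
        exact Nat.lt_of_mul_lt_mul_right this
      obtain ⟨H', x', g', k1, k2, k3⟩ := g2 h3 h6
      obtain ⟨x, rfl⟩ := hφsurj x'
      obtain ⟨g, rfl⟩ := hφsurj g'
      have hidx : (H'.comap φ).index = H'.index := AddSubgroup.index_comap_of_surjective _ hφsurj
      refine ⟨H'.comap φ, x, g, ?_, ?_, ?_⟩
      · intro y
        obtain ⟨i, hi⟩ := k1 (φ y)
        refine ⟨i, ?_⟩
        rw [AddSubgroup.mem_comap, map_sub, map_nsmul]
        exact hi
      · rw [hidx, Nat.card_eq_fintype_card]
        rw [Nat.card_eq_fintype_card, ← he] at k2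
        rw [h5, hn, ← k2]
        have hdvd : H'.index ∣ e := by
          have := AddSubgroup.index_dvd_card H'
          rw [Nat.card_eq_fintype_card] at this
          exact this
        rw [mul_comm e l, Nat.mul_div_assoc l hdvd]
        ring
      · intro y
        rw [hidx]
        have hy : y ∈ (A : Set G) ↔ φ y ∈ (AQ : Set (G ⧸ N)) := by
          rw [Finset.mem_coe, Finset.mem_coe]
          constructor
          · intro hy; exact Finset.mem_image_of_mem _ hy
          · intro hy
            obtain ⟨a, ha, hay⟩ := Finset.mem_image.mp hy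
            rw [← h4, Finset.mem_add]
            exact ⟨y - a, (hF _).mpr ((hφN y a).mp hay.symm), a, ha, by simp⟩
        rw [hy, k3]
        constructor
        · rintro ⟨i, hi, hm⟩
          refine ⟨i, hi, ?_⟩
          rw [AddSubgroup.mem_comap, map_sub, map_add, map_nsmul]; exact hm
        · rintro ⟨i, hi, hm⟩
          refine ⟨i, hi, ?_⟩
          rw [AddSubgroup.mem_comap, map_sub, map_add, map_nsmul] at hm; exact hm

/-- The classification for sets containing `0`. -/
theorem main_zero (h : ℕ) (hh : 2 ≤ h) (G : Type u) [AddCommGroup G] [Fintype G] [DecidableEq G]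
    (ih : ∀ (K : Type u) [AddCommGroup K] [Fintype K] [DecidableEq K],
      Fintype.card K < Fintype.card G → ∀ A : Finset K, nf A h ≠ univ → Good h K A)
    (A : Finset G) (h0 : (0 : G) ∈ A) (hA : nf A h ≠ univ) : Good h G A := by
  classical
  have hnpos : 0 < Fintype.card G := Fintype.card_pos
  set n := Fintype.card G with hn
  by_cases hcl : AddSubgroup.closure (A : Set G) = ⊤
  · -- `A` generates `G`
    have hlt : ∀ j ≤ h, (nf A j).card + 1 ≤ n := by
      intro j hj
      have h1 : (nf A h).card < n := by
        rw [hn, ← Finset.card_univ]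
        exact Finset.card_lt_card ⟨Finset.subset_univ _, fun hs =>
          hA (Finset.eq_univ_iff_forall.mpr fun x => hs (Finset.mem_univ x))⟩
      have h2 := Finset.card_le_card (nf_mono A h0 hj)
      omega
    have hA1 : A.card + 1 ≤ n := by have := hlt 1 (by omega); rwa [nf_one] at this
    have h0A : ({0} + A).card = A.card := by
      rw [Finset.singleton_add, zero_vadd]
    have hf0 : Feas A 1 {0} := ⟨by simp, by rw [h0A]; exact hA1⟩
    obtain ⟨N, F, hF, hat⟩ := exists_subgroup_atom A ⟨{0}, hf0⟩
    have hFA : (F + A).card + 1 ≤ F.card + A.card := by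
      have := hat.min {0} hf0
      rw [h0A, Finset.card_singleton] at this
      omega
    have hFn : F.card < n := by
      have h1 := hat.feas.2
      have h2 : F.card ≤ (F + A).card := Finset.card_le_card_add_right ⟨0, h0⟩
      omega
    rcases Nat.lt_or_ge F.card 2 with hF2 | hF2
    · -- trivial atom
      have hF1 : F.card = 1 := le_antisymm (by omega) hat.feas.1
      have hFz : F = {0} := by
        obtain ⟨w, hw⟩ := Finset.card_eq_one.mp hF1
        have : (0 : G) ∈ F := (hF 0).mpr N.zero_mem
        rw [hw, Finset.mem_singleton] at this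
        rw [hw, this]
      have hstep : ∀ j, j + 1 ≤ h → (nf A j).card + A.card ≤ (nf A (j + 1)).card + 1 := by
        intro j hj
        have hne : (nf A j).Nonempty := ⟨0, nf_mono A h0 (Nat.zero_le j) (by simp [nf])⟩
        have hfj : Feas A 1 (nf A j) := by
          refine ⟨Finset.card_pos.mpr hne, ?_⟩
          have := hlt (j + 1) hj
          rw [nf] at this
          exact this
        have := hat.min _ hfj
        rw [hFz, h0A, Finset.card_singleton] at this
        rw [nf]
        omega
      have hchain : ∀ j ≤ h, j * A.card + 1 ≤ (nf A j).card + j := by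
        intro j
        induction j with
        | zero => intro _; simp [nf]
        | succ j ihj =>
          intro hj
          have h1 := ihj (by omega)
          have h2 := hstep j hj
          have h3 : (j + 1) * A.card = j * A.card + A.card := by ring
          omega
      have hkk2 : kk n h ≤ vv n h := by
        have := le_vv n h n hnpos (dvd_refl _)
        rwa [Nat.div_self hnpos, mul_one] at this
      have hAkk : A.card ≤ kk n h := by
        unfold kk
        rw [Nat.le_div_iff_mul_le (by omega)]
        have h1 := hchain h (le_refl h)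
        have h2 := hlt h (le_refl h)
        rw [mul_comm]
        omega
      constructor
      · exact le_trans hAkk hkk2
      · intro hAv hlt2
        rw [← hn] at hAv hlt2
        have hA2 : 2 ≤ A.card := by
          by_contra hcon
          have hApos : 1 ≤ A.card := Finset.card_pos.mpr ⟨0, h0⟩
          have hA1' : A.card = 1 := by omega
          obtain ⟨w, hw⟩ := Finset.card_eq_one.mp hA1'
          have hw0 : A = {0} := by
            rw [hw, Finset.mem_singleton] at h0
            rw [hw, h0]
          rw [hw0] at hcl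
          simp only [Finset.coe_singleton, AddSubgroup.closure_singleton_zero] at hcl
          have : n = 1 := by
            have h1 : Nat.card (⊤ : AddSubgroup G) = Nat.card (⊥ : AddSubgroup G) := by rw [hcl]
            rw [AddSubgroup.card_top, AddSubgroup.card_bot, Nat.card_eq_fintype_card] at h1
            exact h1
          omega
        -- a tight step
        have htight : ∃ j, 1 ≤ j ∧ j + 2 ≤ h ∧
            (nf A (j + 1)).card + 1 ≤ (nf A j).card + A.card := by
          by_contra hcon
          push Not at hcon
          have hgrow : ∀ j, 1 ≤ j → j + 1 ≤ h → j * A.card ≤ (nf A j).card := by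
            intro j
            induction j with
            | zero => intro h1; omega
            | succ j ihj =>
              intro _ hj
              rcases Nat.eq_zero_or_pos j with hj0 | hj0
              · subst hj0
                rw [nf_one]; simp
              · have h1 := ihj hj0 (by omega)
                have h2 := hcon j hj0 (by omega)
                have h3 : (j + 1) * A.card = j * A.card + A.card := by ring
                omega
          obtain ⟨h', rfl⟩ : ∃ h', h = h' + 1 := ⟨h - 1, by omega⟩
          have h1 := hgrow h' (by omega) (le_refl _)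
          have h2 := hstep h' (le_refl _)
          have h3 := hlt (h' + 1) (le_refl _)
          have h4 : (h' + 1) * A.card = h' * A.card + A.card := by ring
          rw [← hAv] at hlt2
          omega
        obtain ⟨j, hj1, hj2, hj3⟩ := htight
        have hXge : 2 ≤ (nf A j).card := by
          have h1 := Finset.card_le_card (nf_mono A h0 hj1)
          rw [nf_one] at h1
          omega
        have hX : Feas A 2 (nf A j) := by
          refine ⟨hXge, ?_⟩
          have h1 := hstep (j + 1) (by omega)
          have h2 := hlt (j + 2) (by omega)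
          have h3 : nf A j + A = nf A (j + 1) := rfl
          rw [h3]
          have h4 : (nf A (j + 1 + 1)).card = (nf A (j + 2)).card := rfl
          omega
        rcases tight_structure A hA2 (nf A j) hX (by
            have h3 : nf A j + A = nf A (j + 1) := rfl
            rw [h3]; exact hj3) with ⟨x, g, hgen, hAP⟩ | ⟨N', F', hF', hF'2, hF'n, hF'A⟩
        · refine ⟨⊥, x, g, ?_, ?_, ?_⟩
          · intro y
            have hy : y ∈ AddSubgroup.zmultiples g := by rw [hgen]; trivial
            obtain ⟨i, hi⟩ := mem_multiples_iff_mem_zmultiples.mpr hy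
            change i • g = y at hi
            exact ⟨i, by rw [hi]; simp⟩
          · rw [AddSubgroup.index_bot, Nat.card_eq_fintype_card, ← hn, Nat.div_self hnpos, mul_one]
            omega
          · intro y
            rw [AddSubgroup.index_bot, Nat.card_eq_fintype_card, ← hn]
            have hk : kk n h = A.card := by omega
            rw [hk, Finset.mem_coe]
            constructor
            · intro hy
              rw [hAP, Finset.mem_image] at hy
              obtain ⟨i, hi, rfl⟩ := hy
              exact ⟨i, Finset.mem_range.mp hi, by simp⟩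
            · rintro ⟨i, hi, hy⟩
              rw [hAP, Finset.mem_image]
              refine ⟨i, Finset.mem_range.mpr hi, ?_⟩
              rw [AddSubgroup.mem_bot, sub_eq_zero] at hy
              exact hy.symm
        · exact (quot_case h hh G ih A hA N' F' hF' hF'2 hF'n hF'A).2 hAv hlt2
    · exact quot_case h hh G ih A hA N F hF hF2 hFn hFA
  · -- `A` lies in a proper subgroup
    set M := AddSubgroup.closure (A : Set G) with hM
    have hsubgp : ∀ K : AddSubgroup G, K ≠ ⊤ → Nat.card K ≤ vv n h ∧
        n / K.index = Nat.card K ∧ 1 ≤ kk K.index h ∧ kk K.index h * (n / K.index) ≤ vv n h := by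
      intro K hK
      have hc : Nat.card K * K.index = n := by
        have := AddSubgroup.card_mul_index K
        rw [Nat.card_eq_fintype_card (α := G)] at this
        exact this
      have hi0 : K.index ≠ 0 := by
        intro h1; rw [h1] at hc; omega
      have hi1 : K.index ≠ 1 := by
        rw [Ne, AddSubgroup.index_eq_one]; exact hK
      have h1 := kk_pos K.index h hh (by omega)
      have hdvd : K.index ∣ n := ⟨Nat.card K, by rw [← hc]; ring⟩
      have h2 := le_vv n h K.index hnpos hdvd
      have h3 : n / K.index = Nat.card K := by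
        rw [← hc]; exact Nat.mul_div_cancel _ (by omega)
      refine ⟨?_, h3, h1, h2⟩
      rw [h3] at h2
      exact le_trans (Nat.le_mul_of_pos_left _ h1) h2
    obtain ⟨m1, m2, m3, m4⟩ := hsubgp M hcl
    set FM : Finset G := univ.filter (fun x => x ∈ M) with hFM
    have hFMmem : ∀ x, x ∈ FM ↔ x ∈ M := fun x => by simp [hFM]
    have hFMcard : Nat.card M = FM.card := Nat.subtype_card FM hFMmem
    have hAM : A ⊆ FM := fun a ha => (hFMmem a).mpr (AddSubgroup.subset_closure ha)
    have hAMc := Finset.card_le_card hAM
    constructor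
    · rw [← hn]; omega
    · intro hAv hlt2
      rw [← hn] at hAv hlt2
      have hAeq : A = FM := Finset.eq_of_subset_of_card_le hAM (by omega)
      have hk1 : kk M.index h = 1 := by
        rw [m2] at m4
        have h1 : kk M.index h * Nat.card M ≤ 1 * Nat.card M := by omega
        have h2 : 0 < Nat.card M := Nat.card_pos
        have := Nat.le_of_mul_le_mul_right h1 h2
        omega
      obtain ⟨g, hg⟩ : ∃ g, g ∉ M := by
        by_contra hcon
        push Not at hcon
        exact hcl (AddSubgroup.ext fun x => ⟨fun _ => trivial, fun _ => hcon x⟩)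
      have hK : M ⊔ AddSubgroup.zmultiples g = ⊤ := by
        by_contra hne
        obtain ⟨k1, _⟩ := hsubgp _ hne
        have hle : M ≤ M ⊔ AddSubgroup.zmultiples g := le_sup_left
        have h1 : Nat.card (M ⊔ AddSubgroup.zmultiples g : AddSubgroup G) ≤ Nat.card M := by omega
        have h2 : M = M ⊔ AddSubgroup.zmultiples g := AddSubgroup.eq_of_le_of_card_ge hle h1
        apply hg
        rw [h2]
        exact (le_sup_right : AddSubgroup.zmultiples g ≤ _) (AddSubgroup.mem_zmultiples g)
      refine ⟨M, 0, g, ?_, ?_, ?_⟩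
      · intro y
        have hy : y ∈ M ⊔ AddSubgroup.zmultiples g := by rw [hK]; trivial
        rw [AddSubgroup.mem_sup] at hy
        obtain ⟨m, hm, z, hz, hmz⟩ := hy
        obtain ⟨i, hi⟩ := mem_multiples_iff_mem_zmultiples.mpr hz
        change i • g = z at hi
        refine ⟨i, ?_⟩
        rw [hi, ← hmz]; simpa using hm
      · rw [Nat.card_eq_fintype_card, ← hn]
        rw [hk1, one_mul, m2]; omega
      · intro y
        rw [hk1, Finset.mem_coe, hAeq, hFMmem]
        constructor
        · intro hy; exact ⟨0, one_pos, by simpa using hy⟩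
        · rintro ⟨i, hi, hy⟩
          have : i = 0 := by omega
          subst this
          simpa using hy

theorem good_translate (h : ℕ) (G : Type u) [AddCommGroup G] [Fintype G] [DecidableEq G]
    (A : Finset G) (a : G) (hg : Good h G ((-a) +ᵥ A)) : Good h G A := by
  have hc : ((-a) +ᵥ A).card = A.card := Finset.card_vadd_finset _ _
  obtain ⟨g1, g2⟩ := hg
  rw [hc] at g1 g2
  refine ⟨g1, fun h1 h2 => ?_⟩
  have h3 := (g2 h1 h2).translate a
  have h4 : {y | y - a ∈ (((-a) +ᵥ A : Finset G) : Set G)} = (A : Set G) := by
    ext y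
    change (y - a ∈ ((-a) +ᵥ A : Finset G)) ↔ y ∈ A
    rw [Finset.mem_vadd_finset]
    constructor
    · rintro ⟨z, hz, hzy⟩
      simp only [vadd_eq_add] at hzy
      have : y = z := by
        have h5 : y - a = z - a := by rw [← hzy]; abel
        exact sub_left_injective h5
      rw [this]; exact hz
    · intro hy
      exact ⟨y, hy, by simp only [vadd_eq_add]; abel⟩
  rw [h4] at h3
  exact h3

/-- Every set whose `h`-fold sumset is not everything has at most `v₁(n,h)` elements, and in the
main case the extremal sets are of arithmetic progression type. -/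
theorem main_theorem (h : ℕ) (hh : 2 ≤ h) : ∀ (n : ℕ) (G : Type u) [AddCommGroup G] [Fintype G]
    [DecidableEq G], Fintype.card G = n → ∀ A : Finset G, nf A h ≠ univ → Good h G A := by
  intro n
  induction n using Nat.strong_induction_on with
  | _ n ihn =>
    intro G _ _ _ hGn A hA
    have ih : ∀ (K : Type u) [AddCommGroup K] [Fintype K] [DecidableEq K],
        Fintype.card K < Fintype.card G → ∀ A : Finset K, nf A h ≠ univ → Good h K A := by
      intro K _ _ _ hK A hA
      exact ihn (Fintype.card K) (by omega) K rfl A hA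
    rcases Finset.eq_empty_or_nonempty A with hAe | ⟨a, ha⟩
    · subst hAe
      refine ⟨Nat.zero_le _, fun h1 h2 => ?_⟩
      rw [← h1, Finset.card_empty] at h2
      omega
    · apply good_translate h G A a
      apply main_zero h hh G ih
      · rw [Finset.mem_vadd_finset]; exact ⟨a, ha, by simp⟩
      · intro hcon
        apply hA
        rw [nf_translate] at hcon
        have h1 : (h • a) +ᵥ ((h • -a) +ᵥ nf A h) = (h • a) +ᵥ (univ : Finset G) := by rw [hcon]
        rw [vadd_vadd] at h1
        have h2 : h • a + h • -a = 0 := by simp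
        rw [h2, zero_vadd] at h1
        rw [h1]
        exact Finset.vadd_finset_univ

end Pool.Agent.MP_8507d5_co
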