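import Pool.Agent.MP_8507d5_co.Tight

set_option autoImplicit false

namespace Pool.Agent.MP_8507d5_co

open Finset Pointwise

variable {G : Type*} [AddCommGroup G] [DecidableEq G]

/-- If `A ∋ 0` generates `N`, sumsets with `A` inside a coset of `N` that do not fill the coset grow
by at least `|A| - 1`, and `|A + B| < |A| + |B|`, then `|N + B| < |N| + |B|`. -/
theorem coset_lemma (A B : Finset G) (h0 : (0 : G) ∈ A) (N : AddSubgroup G)
    (hN : N = AddSubgroup.closure (A : Set G)) (F : Finset G) (hF : ∀ x, x ∈ F ↔ x ∈ N)
    (hyp : ∀ X : Finset G, X.Nonempty → ∀ z : G, (∀ x ∈ X, x - z ∈ N) → z ∉ X + A →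
      X.card + A.card ≤ (X + A).card + 1)
    (hcard : (A + B).card + 1 ≤ A.card + B.card) :
    (F + B).card + 1 ≤ F.card + B.card := by
  classical
  have hAN : ∀ a ∈ A, a ∈ N := fun a ha => hN ▸ AddSubgroup.subset_closure ha
  have hAF : A.card ≤ F.card := Finset.card_le_card (fun a ha => (hF a).mpr (hAN a ha))
  by_cases hall : F + B ⊆ A + B
  · have := Finset.card_le_card hall
    omega
  · rw [Finset.not_subset] at hall
    obtain ⟨z, hz1, hz2⟩ := hall
    set BC := B.filter (fun b => b - z ∈ N) with hBC
    set B' := B.filter (fun b => ¬ (b - z ∈ N)) with hB'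
    have hBcard : BC.card + B'.card = B.card := Finset.card_filter_add_card_filter_not _
    have hBCne : BC.Nonempty := by
      rw [Finset.mem_add] at hz1
      obtain ⟨m, hm, b, hb, hmb⟩ := hz1
      refine ⟨b, ?_⟩
      rw [hBC, Finset.mem_filter]
      refine ⟨hb, ?_⟩
      have : b - z = -m := by rw [← hmb]; abel
      rw [this]; exact N.neg_mem ((hF m).mp hm)
    have h1 := hyp BC hBCne z (fun x hx => (Finset.mem_filter.mp hx).2) (by
      intro h
      apply hz2
      rw [add_comm]
      exact Finset.add_subset_add_right (Finset.filter_subset _ _) h)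
    have hdis : Disjoint (BC + A) (B' + A) := by
      rw [Finset.disjoint_left]
      intro x hx hy
      rw [Finset.mem_add] at hx hy
      obtain ⟨b, hb, a, ha, rfl⟩ := hx
      obtain ⟨b', hb', a', ha', he⟩ := hy
      apply (Finset.mem_filter.mp hb').2
      have e1 := (Finset.mem_filter.mp hb).2
      have : b' - z = (b - z) + (a - a') := by
        have : b' = b + a - a' := by rw [← he]; abel
        rw [this]; abel
      rw [this]
      exact N.add_mem e1 (N.sub_mem (hAN a ha) (hAN a' ha'))
    have hun : (BC + A) ∪ (B' + A) ⊆ A + B := by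
      rw [add_comm A B]
      apply Finset.union_subset
      · exact Finset.add_subset_add_right (Finset.filter_subset _ _)
      · exact Finset.add_subset_add_right (Finset.filter_subset _ _)
    have h2 := Finset.card_le_card hun
    rw [Finset.card_union_of_disjoint hdis] at h2
    have hsub : B' ⊆ B' + A := by
      intro b hb
      rw [Finset.mem_add]
      exact ⟨b, hb, 0, h0, by simp⟩
    have h3 := Finset.card_le_card hsub
    have hBCpos : 1 ≤ BC.card := Finset.card_pos.mpr hBCne
    have h4 : B' + A = B' := (Finset.eq_of_subset_of_card_le hsub (by omega)).symm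
    -- `B'` is stable under `N`
    have hstab : ∀ m ∈ N, ∀ b ∈ B', b + m ∈ B' := by
      intro m hm
      rw [hN] at hm
      induction hm using AddSubgroup.closure_induction with
      | mem a ha =>
        intro b hb
        rw [← h4]; exact Finset.add_mem_add hb ha
      | zero => intro b hb; simpa using hb
      | add x y _ _ hx hy => intro b hb; rw [← add_assoc]; exact hy _ (hx _ hb)
      | neg x _ hx =>
        -- translation by `x` is injective on the finite set, hence surjective
        intro b hb
        have hmap : B'.image (fun b => b + x) = B' := by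
          apply Finset.eq_of_subset_of_card_le
          · intro y hy
            rw [Finset.mem_image] at hy
            obtain ⟨c, hc, rfl⟩ := hy
            exact hx c hc
          · rw [Finset.card_image_of_injective _ (add_left_injective x)]
        rw [← hmap, Finset.mem_image] at hb
        obtain ⟨c, hc, rfl⟩ := hb
        simpa using hc
    have hFB : F + B ⊆ (z +ᵥ F) ∪ B' := by
      intro x hx
      rw [Finset.mem_add] at hx
      obtain ⟨m, hm, b, hb, rfl⟩ := hx
      rw [Finset.mem_union]
      by_cases hbz : b - z ∈ N
      · left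
        rw [Finset.mem_vadd_finset]
        refine ⟨m + (b - z), (hF _).mpr (N.add_mem ((hF m).mp hm) hbz), ?_⟩
        simp only [vadd_eq_add]; abel
      · right
        rw [add_comm]
        exact hstab m ((hF m).mp hm) b (by rw [hB', Finset.mem_filter]; exact ⟨hb, hbz⟩)
    have h5 := Finset.card_le_card hFB
    have h6 := Finset.card_union_le (z +ᵥ F) B'
    rw [Finset.card_vadd_finset] at h6
    omega

/-- The growth hypothesis of `coset_lemma` holds for Sidon sets. -/
theorem rel_atom [Fintype G] (A : Finset G) (hA : Sidon A) (h0 : (0 : G) ∈ A)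
    (N : AddSubgroup G) (hN : N = AddSubgroup.closure (A : Set G))
    (X : Finset G) (hX : X.Nonempty) (z : G) (hz : ∀ x ∈ X, x - z ∈ N) (hzX : z ∉ X + A) :
    X.card + A.card ≤ (X + A).card + 1 := by
  classical
  have hAN : ∀ a ∈ A, a ∈ N := fun a ha => hN ▸ AddSubgroup.subset_closure ha
  -- pass to the subgroup `N`
  let A' : Finset N := univ.filter (fun a => (a : G) ∈ A)
  let X' : Finset N := univ.filter (fun x => z + (x : G) ∈ X)
  have hA'mem : ∀ a : N, a ∈ A' ↔ (a : G) ∈ A := fun a => by simp [A']
  have hX'mem : ∀ x : N, x ∈ X' ↔ z + (x : G) ∈ X := fun x => by simp [X']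
  have hA'card : A'.card = A.card := by
    apply Finset.card_bij (fun (a : N) _ => (a : G))
    · intro a ha; exact (hA'mem a).mp ha
    · intro a _ b _ h; exact Subtype.ext h
    · intro a ha; exact ⟨⟨a, hAN a ha⟩, (hA'mem _).mpr ha, rfl⟩
  have hX'card : X'.card = X.card := by
    apply Finset.card_bij (fun (x : N) _ => z + (x : G))
    · intro a ha; exact (hX'mem a).mp ha
    · intro a _ b _ h; exact Subtype.ext (add_left_cancel h)
    · intro x hx
      exact ⟨⟨x - z, hz x hx⟩, (hX'mem _).mpr (by simpa using hx), by simp⟩
  have hXA'card : (X' + A').card = (X + A).card := by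
    apply Finset.card_bij (fun (x : N) _ => z + (x : G))
    · intro a ha
      rw [Finset.mem_add] at ha ⊢
      obtain ⟨x, hx, a', ha', rfl⟩ := ha
      exact ⟨z + x, (hX'mem x).mp hx, a', (hA'mem a').mp ha', by push_cast; abel⟩
    · intro a _ b _ h; exact Subtype.ext (add_left_cancel h)
    · intro y hy
      rw [Finset.mem_add] at hy
      obtain ⟨x, hx, a, ha, rfl⟩ := hy
      refine ⟨⟨x - z, hz x hx⟩ + ⟨a, hAN a ha⟩, ?_, ?_⟩
      · apply Finset.add_mem_add
        · exact (hX'mem _).mpr (by simpa using hx)
        · exact (hA'mem _).mpr ha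
      · push_cast; abel
  have hzero : (0 : N) ∉ X' + A' := by
    intro h
    apply hzX
    rw [Finset.mem_add] at h ⊢
    obtain ⟨x, hx, a, ha, hxa⟩ := h
    refine ⟨z + x, (hX'mem x).mp hx, a, (hA'mem a).mp ha, ?_⟩
    have : (x : G) + (a : G) = 0 := by
      have := congrArg Subtype.val hxa
      simpa using this
    rw [add_assoc, this, add_zero]
  have hX'ne : 1 ≤ X'.card := by rw [hX'card]; exact Finset.card_pos.mpr hX
  have hlt : (X' + A').card + 1 ≤ Fintype.card N := by
    have : (X' + A').card < (univ : Finset N).card := by
      apply Finset.card_lt_card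
      exact ⟨Finset.subset_univ _, fun h => hzero (h (Finset.mem_univ _))⟩
    rw [Finset.card_univ] at this
    omega
  have hXfeas : Feas A' 1 X' := ⟨hX'ne, hlt⟩
  have hA'le : A'.card ≤ (X' + A').card := Finset.card_le_card_add_left (Finset.card_pos.mp hX'ne)
  have h0f : Feas A' 1 {0} := by
    refine ⟨by simp, ?_⟩
    rw [Finset.singleton_add, zero_vadd]
    omega
  obtain ⟨L, LF, hLF, hLat⟩ := exists_subgroup_atom A' ⟨X', hXfeas⟩
  have hm1 := hLat.min X' hXfeas
  have hm2 := hLat.min {0} h0f
  have h0A' : ({0} + A').card = A'.card := by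
    rw [Finset.singleton_add]; simp
  rw [h0A'] at hm2
  rw [Finset.card_singleton] at hm2
  have hSid : Sidon A' := by
    intro g hg
    have hg' : (g : G) ≠ 0 := fun h => hg (Subtype.ext h)
    refine le_trans ?_ (hA g hg')
    apply Finset.card_le_card_of_injOn (fun (x : N) => (x : G))
    · intro x hx
      rw [Finset.mem_coe, Finset.mem_inter, Finset.mem_vadd_finset] at hx
      obtain ⟨h1, y, hy, rfl⟩ := hx
      simp only [Finset.coe_inter, Set.mem_inter_iff, Finset.mem_coe]
      refine ⟨(hA'mem _).mp h1, ?_⟩
      rw [Finset.mem_vadd_finset]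
      exact ⟨y, (hA'mem y).mp hy, by simp⟩
    · intro x _ y _ h; exact Subtype.ext h
  rcases Nat.lt_or_ge LF.card 2 with hL | hL
  · -- the atom is trivial
    have h1 : LF.card = 1 := le_antisymm (by omega) hLat.feas.1
    have h2 : LF = {0} := by
      obtain ⟨w, hw⟩ := Finset.card_eq_one.mp h1
      have : (0 : N) ∈ LF := (hLF 0).mpr L.zero_mem
      rw [hw, Finset.mem_singleton] at this
      rw [hw, this]
    rw [h2, h0A', Finset.card_singleton] at hm1
    rw [← hA'card, ← hX'card, ← hXA'card]
    omega
  · exfalso
    have hsub := sidon_subset A' hSid ((hA'mem 0).mpr (by simpa using h0)) L LF hLF hL (by omega)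
    -- then `L = ⊤`
    have hLtop : ∀ x : N, x ∈ L := by
      intro x
      have hx : (x : G) ∈ AddSubgroup.closure (A : Set G) := hN ▸ x.2
      have hmap : AddSubgroup.closure (A : Set G) ≤ L.map N.subtype := by
        rw [AddSubgroup.closure_le]
        intro a ha
        exact ⟨⟨a, hAN a ha⟩, hsub _ ((hA'mem _).mpr ha), rfl⟩
      obtain ⟨y, hy, hyx⟩ := hmap hx
      have : y = x := Subtype.ext hyx
      rw [← this]; exact hy
    have huniv : LF + A' = univ := by
      rw [Finset.eq_univ_iff_forall]
      intro x
      rw [Finset.mem_add]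
      exact ⟨x, (hLF x).mpr (hLtop x), 0, (hA'mem 0).mpr (by simpa using h0), by simp⟩
    have := hLat.feas.2
    rw [huniv, Finset.card_univ] at this
    omega

/-- `B` is an arithmetic progression when `|B ∪ (B + g)| ≤ |B| + 1`, `g` generates, `B` not everything. -/
theorem ap_of_pair [Fintype G] (B : Finset G) (g : G)
    (hgen : AddSubgroup.zmultiples g = ⊤) (hB : B.Nonempty) (hBn : B ≠ univ)
    (hcard : (({0, g} : Finset G) + B).card ≤ B.card + 1) :
    ∃ x : G, B = (Finset.range B.card).image (fun i : ℕ => x + i • g) := by
  classical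
  have hsum : (({0, g} : Finset G) + B) = B ∪ (g +ᵥ B) := by
    rw [Finset.insert_eq, Finset.union_add, Finset.singleton_add, Finset.singleton_add,
      zero_vadd]
  have hcg : (g +ᵥ B).card = B.card := Finset.card_vadd_finset _ _
  -- the set of starting points
  have h1 : (B \ (g +ᵥ B)).card ≤ 1 := by
    have e1 := Finset.card_sdiff_add_card B (g +ᵥ B)
    rw [hsum] at hcard
    omega
  -- going back from any element reaches a starting point
  have hback : ∀ b ∈ B, ∃ i : ℕ, b - i • g ∈ B \ (g +ᵥ B) ∧ ∀ j ≤ i, b - j • g ∈ B := by
    intro b hb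
    have hex : ∃ i : ℕ, b - i • g ∉ B := by
      by_contra hcon
      push Not at hcon
      apply hBn
      rw [Finset.eq_univ_iff_forall]
      intro y
      have hy : b - y ∈ AddSubgroup.zmultiples g := by rw [hgen]; trivial
      obtain ⟨i, hi⟩ := mem_multiples_iff_mem_zmultiples.mpr hy
      have := hcon i
      change i • g = b - y at hi
      rw [hi] at this
      simpa using this
    have hi := Nat.find_spec hex
    have hmin := fun j (hj : j < Nat.find hex) => Nat.find_min hex hj
    have hpos : Nat.find hex ≠ 0 := by
      intro h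
      rw [h] at hi
      apply hi; simpa using hb
    obtain ⟨i, hi'⟩ := Nat.exists_eq_succ_of_ne_zero hpos
    refine ⟨i, ?_, ?_⟩
    · rw [Finset.mem_sdiff]
      constructor
      · have := hmin i (by omega)
        push Not at this
        exact this
      · intro h
        rw [Finset.mem_vadd_finset] at h
        obtain ⟨y, hy, hye⟩ := h
        apply hi
        rw [hi']
        have : y = b - (i + 1) • g := by
          rw [succ_nsmul]
          have : g + y = b - i • g := hye
          have h2 : y = b - i • g - g := by rw [← this]; abel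
          rw [h2]; abel
        rw [Nat.succ_eq_add_one, ← this]; exact hy
    · intro j hj
      have := hmin j (by omega)
      push Not at this
      exact this
  obtain ⟨b0, hb0⟩ := hB
  obtain ⟨i0, hx0, _⟩ := hback b0 hb0
  set x := b0 - i0 • g with hx
  have hxB : x ∈ B := (Finset.mem_sdiff.mp hx0).1
  have hxg : x - g ∉ B := by
    intro h
    apply (Finset.mem_sdiff.mp hx0).2
    rw [Finset.mem_vadd_finset]
    exact ⟨x - g, h, by simp⟩
  have huniq : ∀ y ∈ B \ (g +ᵥ B), y = x := by
    intro y hy
    rw [Finset.card_le_one] at h1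
    exact h1 y hy x hx0
  -- first failure forward
  have hex : ∃ K : ℕ, x + K • g ∉ B := by
    by_contra hcon
    push Not at hcon
    apply hBn
    rw [Finset.eq_univ_iff_forall]
    intro y
    have hy : y - x ∈ AddSubgroup.zmultiples g := by rw [hgen]; trivial
    obtain ⟨i, hi⟩ := mem_multiples_iff_mem_zmultiples.mpr hy
    have := hcon i
    change i • g = y - x at hi
    rw [hi] at this
    simpa using this
  set K := Nat.find hex with hK
  have hKspec : x + K • g ∉ B := Nat.find_spec hex
  have hKmin : ∀ j < K, x + j • g ∈ B := fun j hj => by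
    have := Nat.find_min hex hj
    push Not at this
    exact this
  have hBeq : B = (Finset.range K).image (fun i : ℕ => x + i • g) := by
    ext y
    rw [Finset.mem_image]
    constructor
    · intro hy
      obtain ⟨i, h2, h3⟩ := hback y hy
      have h4 := huniq _ h2
      refine ⟨i, ?_, ?_⟩
      · rw [Finset.mem_range]
        by_contra hcon
        push Not at hcon
        apply hKspec
        have := h3 (i - K) (by omega)
        have e : y - (i - K) • g = x + K • g := by
          have hy2 : y = x + i • g := by rw [← h4]; abel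
          have hi : i • g = (i - K) • g + K • g := by rw [← add_nsmul]; congr 1; omega
          rw [hy2, hi]; abel
        rw [e] at this
        exact this
      · rw [← h4]; abel
    · rintro ⟨i, hi, rfl⟩
      exact hKmin i (Finset.mem_range.mp hi)
  have hinj : Set.InjOn (fun i : ℕ => x + i • g) (Finset.range K) := by
    intro i hi j hj hij
    simp only [Finset.coe_range, Set.mem_Iio] at hi hj
    simp only at hij
    by_contra hne
    rcases Nat.lt_or_gt_of_ne hne with h | h
    · apply hxg
      have : x - g = x + (j - i - 1) • g := by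
        have h5 : i • g = j • g := add_left_cancel hij
        have h6 : j • g = i • g + (j - i - 1) • g + g := by
          rw [← add_nsmul, ← succ_nsmul]; congr 1; omega
        have h7 : (j - i - 1) • g + g = 0 := by
          have : i • g = i • g + ((j - i - 1) • g + g) := by rw [← add_assoc, ← h6]; exact h5
          simpa using this.symm
        have h8 : (j - i - 1) • g = -g := eq_neg_of_add_eq_zero_left h7
        rw [h8]; abel
      rw [this]; exact hKmin _ (by omega)
    · apply hxg
      have : x - g = x + (i - j - 1) • g := by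
        have h5 : j • g = i • g := (add_left_cancel hij).symm
        have h6 : i • g = j • g + (i - j - 1) • g + g := by
          rw [← add_nsmul, ← succ_nsmul]; congr 1; omega
        have h7 : (i - j - 1) • g + g = 0 := by
          have : j • g = j • g + ((i - j - 1) • g + g) := by rw [← add_assoc, ← h6]; exact h5
          simpa using this.symm
        have h8 : (i - j - 1) • g = -g := eq_neg_of_add_eq_zero_left h7
        rw [h8]; abel
      rw [this]; exact hKmin _ (by omega)
  have hKc : B.card = K := by
    rw [hBeq, Finset.card_image_of_injOn hinj, Finset.card_range]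
  exact ⟨x, by rw [hKc]; exact hBeq⟩

/-- The main structural lemma: a small sum `X + B` forces `B` to be an arithmetic progression with
generating difference, or `|N + B| < |N| + |B|` for some proper nontrivial subgroup `N`. -/
theorem tight_structure [Fintype G] (B : Finset G) (hB2 : 2 ≤ B.card)
    (X : Finset G) (hX : Feas B 2 X) (hXB : (X + B).card + 1 ≤ X.card + B.card) :
    (∃ x g : G, AddSubgroup.zmultiples g = ⊤ ∧
        B = (Finset.range B.card).image (fun i : ℕ => x + i • g)) ∨
      ∃ (N : AddSubgroup G) (F : Finset G), (∀ x, x ∈ F ↔ x ∈ N) ∧ 2 ≤ F.card ∧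
        F.card < Fintype.card G ∧ (F + B).card + 1 ≤ F.card + B.card := by
  classical
  obtain ⟨A₀, hA₀⟩ := exists_atom B 2 ⟨X, hX⟩
  have hA₀ne : A₀.Nonempty := Finset.card_pos.mp (lt_of_lt_of_le two_pos hA₀.feas.1)
  obtain ⟨a₀, ha₀⟩ := hA₀ne
  set A := (-a₀) +ᵥ A₀ with hAdef
  have hA : IsAtom B 2 A := hA₀.translate _
  have h0 : (0 : G) ∈ A := by
    rw [hAdef, Finset.mem_vadd_finset]; exact ⟨a₀, ha₀, by simp⟩
  have hAB : (A + B).card + 1 ≤ A.card + B.card := by
    have := hA.min X hX; omega
  have hA2 : 2 ≤ A.card := hA.feas.1
  have hAn : (A + B).card + 2 ≤ Fintype.card G := hA.feas.2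
  have hBne : B.Nonempty := Finset.card_pos.mp (by omega)
  -- periodic atoms containing `0` are subgroups
  have periodic : ∀ (C D : Finset G), IsAtom C 2 D → (0 : G) ∈ D → (∃ g : G, g ≠ 0 ∧ g +ᵥ D = D) →
      ∃ N : AddSubgroup G, ∀ x, x ∈ D ↔ x ∈ N := by
    rintro C D hD h0D ⟨g, hg, hgD⟩
    have hgmem : ∀ d ∈ D, g + d ∈ D := by
      intro d hd
      rw [← hgD, Finset.mem_vadd_finset]; exact ⟨d, hd, rfl⟩
    have key : ∀ x ∈ D, (-x) +ᵥ D = D := by
      intro x hx
      apply hD.inter
      have h1 : ({0, g} : Finset G) ⊆ D ∩ ((-x) +ᵥ D) := by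
        intro y hy
        rw [Finset.mem_insert, Finset.mem_singleton] at hy
        rw [Finset.mem_inter, Finset.mem_vadd_finset]
        rcases hy with rfl | rfl
        · exact ⟨h0D, x, hx, by simp⟩
        · refine ⟨by simpa using hgmem 0 h0D, y + x, hgmem x hx, ?_⟩
          simp only [vadd_eq_add]; abel
      have h2 := Finset.card_le_card h1
      rwa [Finset.card_pair (Ne.symm hg)] at h2
    have hneg : ∀ x ∈ D, -x ∈ D := by
      intro x hx
      rw [← key x hx, Finset.mem_vadd_finset]
      exact ⟨0, h0D, by simp⟩
    have hadd : ∀ x ∈ D, ∀ y ∈ D, x + y ∈ D := by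
      intro x hx y hy
      have h1 := key (-x) (hneg x hx)
      rw [neg_neg] at h1
      rw [← h1, Finset.mem_vadd_finset]
      exact ⟨y, hy, rfl⟩
    exact ⟨{ carrier := {x | x ∈ D}
             zero_mem' := h0D
             add_mem' := fun {x y} hx hy => hadd x hx y hy
             neg_mem' := fun {x} hx => hneg x hx }, fun x => Iff.rfl⟩
  have nonper : ∀ (C D : Finset G), IsAtom C 2 D → (¬ ∃ g : G, g ≠ 0 ∧ g +ᵥ D = D) → Sidon D := by
    intro C D hD h g hg
    by_contra hcon
    push Not at hcon
    exact h ⟨g, hg, hD.inter g hcon⟩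
  by_cases hper : ∃ g : G, g ≠ 0 ∧ g +ᵥ A = A
  · right
    obtain ⟨N, hN⟩ := periodic B A hA h0 hper
    refine ⟨N, A, hN, hA2, ?_, hAB⟩
    have : A.card ≤ (A + B).card := Finset.card_le_card_add_right hBne
    omega
  · have hS : Sidon A := nonper B A hA hper
    set N := AddSubgroup.closure (A : Set G) with hN
    set F : Finset G := univ.filter (fun x => x ∈ N) with hFdef
    have hF : ∀ x, x ∈ F ↔ x ∈ N := fun x => by simp [hFdef]
    have hFB := coset_lemma A B h0 N hN F hF
      (fun X hX z hz hzX => rel_atom A hS h0 N hN X hX z hz hzX) hAB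
    have hAF : A.card ≤ F.card := Finset.card_le_card
      (fun a ha => (hF a).mpr (AddSubgroup.subset_closure ha))
    by_cases hFn : F.card < Fintype.card G
    · right
      exact ⟨N, F, hF, by omega, hFn, hFB⟩
    · -- `A` generates `G`
      have hFuniv : F = univ := by
        apply Finset.eq_univ_of_card
        have := card_le_univ F
        omega
      have hNtop : N = ⊤ := by
        rw [eq_top_iff]; intro x _
        rw [← hF, hFuniv]; exact Finset.mem_univ _
      rcases Nat.lt_or_ge A.card 3 with hA3 | hA3
      · left
        have hA2' : A.card = 2 := by omega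
        obtain ⟨g, hg, hAg⟩ : ∃ g : G, g ≠ 0 ∧ A = {0, g} := by
          obtain ⟨u, v, huv, hA'⟩ := Finset.card_eq_two.mp hA2'
          rw [hA'] at h0
          rw [Finset.mem_insert, Finset.mem_singleton] at h0
          rcases h0 with h | h
          · subst h; exact ⟨v, Ne.symm huv, hA'⟩
          · subst h; exact ⟨u, huv, by rw [hA', Finset.pair_comm]⟩
        have hgen : AddSubgroup.zmultiples g = ⊤ := by
          rw [eq_top_iff, ← hNtop, hN, AddSubgroup.closure_le]
          intro a ha
          rw [hAg] at ha
          simp only [Finset.coe_insert, Finset.coe_singleton, Set.mem_insert_iff,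
            Set.mem_singleton_iff] at ha
          rcases ha with rfl | rfl
          · exact AddSubgroup.zero_mem _
          · exact AddSubgroup.mem_zmultiples _
        have hBn : B ≠ univ := by
          intro h
          rw [h] at hAn
          have : (univ : Finset G).card ≤ (A + univ).card :=
            Finset.card_le_card_add_left ⟨0, h0⟩
          rw [Finset.card_univ] at this
          omega
        have hc : (({0, g} : Finset G) + B).card ≤ B.card + 1 := by
          rw [← hAg]; omega
        obtain ⟨x, hx⟩ := ap_of_pair B g hgen hBne hBn hc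
        exact ⟨x, g, hgen, hx⟩
      · exfalso
        -- consider the `2`-atoms of `A`
        have hBfeas : Feas A 2 B := ⟨hB2, by rw [add_comm B A]; exact hAn⟩
        obtain ⟨M₀, hM₀⟩ := exists_atom A 2 ⟨B, hBfeas⟩
        have hM₀ne : M₀.Nonempty := Finset.card_pos.mp (lt_of_lt_of_le two_pos hM₀.feas.1)
        obtain ⟨m₀, hm₀⟩ := hM₀ne
        set M := (-m₀) +ᵥ M₀ with hMdef
        have hM : IsAtom A 2 M := hM₀.translate _
        have h0M : (0 : G) ∈ M := by
          rw [hMdef, Finset.mem_vadd_finset]; exact ⟨m₀, hm₀, by simp⟩
        have hMA : (M + A).card + 1 ≤ M.card + A.card := by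
          have h1 := hM.min B hBfeas
          have h2 : (B + A).card = (A + B).card := by rw [add_comm]
          omega
        have hM2 := hM.feas.1
        by_cases hMper : ∃ g : G, g ≠ 0 ∧ g +ᵥ M = M
        · obtain ⟨N', hN'⟩ := periodic A M hM h0M hMper
          have hsub := sidon_subset A hS h0 N' M hN' hM2 hMA
          have hN'top : ∀ x, x ∈ N' := by
            intro x
            have : N ≤ N' := by rw [hN, AddSubgroup.closure_le]; exact hsub
            exact this (hNtop ▸ AddSubgroup.mem_top x)
          have : M + A = univ := by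
            rw [Finset.eq_univ_iff_forall]
            intro x
            rw [Finset.mem_add]
            exact ⟨x, (hN' x).mpr (hN'top x), 0, h0, by simp⟩
          have h5 := hM.feas.2
          rw [this, Finset.card_univ] at h5
          omega
        · have hMS : Sidon M := nonper A M hM hMper
          rcases le_total M.card A.card with hle | hle
          · have h1 := sidon_card A hS M
            rw [add_comm A M] at h1
            obtain ⟨m, hm⟩ := Nat.exists_eq_add_of_le hM2
            obtain ⟨a, ha⟩ := Nat.exists_eq_add_of_le hA3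
            rw [hm, ha] at h1 hMA hle
            have h2 : 2 + m - 1 = m + 1 := by omega
            rw [h2] at h1
            nlinarith
          · have h1 := sidon_card M hMS A
            obtain ⟨m, hm⟩ := Nat.exists_eq_add_of_le hM2
            obtain ⟨a, ha⟩ := Nat.exists_eq_add_of_le hA3
            rw [hm, ha] at h1 hMA hle
            have h2 : 3 + a - 1 = a + 2 := by omega
            rw [h2] at h1
            nlinarith

end Pool.Agent.MP_8507d5_co
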