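import Pool.Agent.MP_8507d5_co.Atoms

set_option autoImplicit false

namespace Pool.Agent.MP_8507d5_co

open Finset Pointwise

variable {G : Type*} [AddCommGroup G] [DecidableEq G]

/-- Two translates of `A` by different elements meet in at most one element. -/
def Sidon (A : Finset G) : Prop := ∀ g : G, g ≠ 0 → (A ∩ (g +ᵥ A)).card ≤ 1

theorem inter_translate_card (A : Finset G) (s t : G) :
    ((s +ᵥ A) ∩ (t +ᵥ A)).card = (A ∩ ((t - s) +ᵥ A)).card := by
  have h : (s +ᵥ A) ∩ (t +ᵥ A) = s +ᵥ (A ∩ ((t - s) +ᵥ A)) := by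
    rw [Finset.vadd_finset_inter, vadd_vadd]
    congr 2
    abel
  rw [h, Finset.card_vadd_finset]

theorem sidon_card (A : Finset G) (hA : Sidon A) (S : Finset G) :
    2 * S.card * A.card ≤ 2 * (A + S).card + S.card * (S.card - 1) := by
  classical
  induction S using Finset.induction_on with
  | empty => simp
  | insert s S hs ih =>
    have h1 : A + insert s S = (A + S) ∪ (s +ᵥ A) := by
      rw [Finset.insert_eq, Finset.add_union, Finset.union_comm]
      congr 1
      ext x
      simp only [Finset.mem_add, Finset.mem_singleton, Finset.mem_vadd_finset, vadd_eq_add]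
      constructor
      · rintro ⟨a, ha, b, rfl, rfl⟩; exact ⟨a, ha, by abel⟩
      · rintro ⟨a, ha, rfl⟩; exact ⟨a, ha, s, rfl, by abel⟩
    have h2 : ((A + S) ∩ (s +ᵥ A)).card ≤ S.card := by
      have hsub : (A + S) ∩ (s +ᵥ A) ⊆ S.biUnion (fun t => (t +ᵥ A) ∩ (s +ᵥ A)) := by
        intro x hx
        rw [Finset.mem_inter, Finset.mem_add] at hx
        obtain ⟨⟨a, ha, t, ht, rfl⟩, hx2⟩ := hx
        rw [Finset.mem_biUnion]
        refine ⟨t, ht, Finset.mem_inter.mpr ⟨?_, hx2⟩⟩
        rw [Finset.mem_vadd_finset]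
        exact ⟨a, ha, by simp [add_comm]⟩
      calc ((A + S) ∩ (s +ᵥ A)).card ≤ _ := Finset.card_le_card hsub
        _ ≤ ∑ t ∈ S, ((t +ᵥ A) ∩ (s +ᵥ A)).card := Finset.card_biUnion_le
        _ ≤ ∑ t ∈ S, 1 := by
            apply Finset.sum_le_sum
            intro t ht
            rw [inter_translate_card]
            apply hA
            intro h
            rw [sub_eq_zero] at h
            exact hs (h ▸ ht)
        _ = S.card := by simp
    have h3 := Finset.card_union_add_card_inter (A + S) (s +ᵥ A)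
    rw [Finset.card_vadd_finset] at h3
    rw [h1, Finset.card_insert_of_notMem hs]
    have h4 : (S.card + 1) * (S.card + 1 - 1) = S.card * (S.card - 1) + 2 * S.card := by
      rcases Nat.eq_zero_or_pos S.card with h | h
      · rw [h]
      · obtain ⟨m, hm⟩ := Nat.exists_eq_succ_of_ne_zero h.ne'
        rw [hm]; simp; ring
    rw [h4]
    have h5 : 2 * (S.card + 1) * A.card = 2 * S.card * A.card + 2 * A.card := by ring
    rw [h5]
    omega

/-- A Sidon set `A ∋ 0` with `|M + A| < |M| + |A|` for a nontrivial subgroup `M` lies in `M`. -/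
theorem sidon_subset (A : Finset G) (hA : Sidon A) (h0 : (0 : G) ∈ A)
    (M : AddSubgroup G) (F : Finset G) (hF : ∀ x, x ∈ F ↔ x ∈ M) (hF2 : 2 ≤ F.card)
    (hcard : (F + A).card + 1 ≤ F.card + A.card) : ∀ a ∈ A, a ∈ M := by
  classical
  by_contra hcon
  push Not at hcon
  obtain ⟨y, hy, hyM⟩ := hcon
  set A0 := A.filter (fun a => a ∈ M) with hA0
  set A1 := A.filter (fun a => a - y ∈ M) with hA1
  have hc0 : 1 ≤ A0.card := Finset.card_pos.mpr ⟨0, by simp [hA0, h0, M.zero_mem]⟩
  have hc1 : 1 ≤ A1.card := Finset.card_pos.mpr ⟨y, by simp [hA1, hy, M.zero_mem]⟩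
  -- holes
  have hholes : (F.card - A0.card) + (F.card - A1.card) ≤ (F + A).card - A.card := by
    have e0 : (F \ A0).card = F.card - A0.card := by
      apply Finset.card_sdiff_of_subset
      intro a ha; rw [hF]; exact (Finset.mem_filter.mp ha).2
    have e1 : ((y +ᵥ F) \ A1).card = F.card - A1.card := by
      rw [Finset.card_sdiff_of_subset, Finset.card_vadd_finset]
      intro a ha
      rw [Finset.mem_vadd_finset]
      exact ⟨a - y, (hF _).mpr (Finset.mem_filter.mp ha).2, by simp⟩
    rw [← e0, ← e1]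
    have hdisj : Disjoint (F \ A0) ((y +ᵥ F) \ A1) := by
      rw [Finset.disjoint_left]
      intro a ha hb
      rw [Finset.mem_sdiff] at ha hb
      obtain ⟨m, hm, hme⟩ := Finset.mem_vadd_finset.mp hb.1
      have h1 : a ∈ M := (hF a).mp ha.1
      have h2 : m ∈ M := (hF m).mp hm
      apply hyM
      have : y = a - m := by rw [← hme]; simp
      rw [this]; exact M.sub_mem h1 h2
    rw [← Finset.card_union_of_disjoint hdisj]
    have hAsub : A ⊆ F + A := by
      intro a ha
      rw [Finset.mem_add]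
      exact ⟨0, (hF 0).mpr M.zero_mem, a, ha, by simp⟩
    rw [← Finset.card_sdiff_of_subset hAsub]
    apply Finset.card_le_card
    intro a ha
    rw [Finset.mem_union, Finset.mem_sdiff, Finset.mem_sdiff] at ha
    rw [Finset.mem_sdiff]
    rcases ha with ⟨h1, h2⟩ | ⟨h1, h2⟩
    · refine ⟨Finset.mem_add.mpr ⟨a, h1, 0, h0, by simp⟩, fun h => h2 ?_⟩
      rw [hA0, Finset.mem_filter]; exact ⟨h, (hF a).mp h1⟩
    · obtain ⟨m, hm, hme⟩ := Finset.mem_vadd_finset.mp h1
      refine ⟨Finset.mem_add.mpr ⟨m, hm, y, hy, ?_⟩, fun h => h2 ?_⟩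
      · rw [← hme]; simp [add_comm]
      · rw [hA1, Finset.mem_filter]
        refine ⟨h, ?_⟩
        rw [← hme]; simpa using (hF m).mp hm
  -- differences
  have hpairs : A0.card * (A0.card - 1) + A1.card * (A1.card - 1) ≤ F.card - 1 := by
    have hd : Disjoint A0.offDiag A1.offDiag := by
      rw [Finset.disjoint_left]
      rintro ⟨u, v⟩ h1 h2
      rw [Finset.mem_offDiag] at h1 h2
      apply hyM
      have e1 : u ∈ M := (Finset.mem_filter.mp h1.1).2
      have e2 : u - y ∈ M := (Finset.mem_filter.mp h2.1).2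
      have : y = u - (u - y) := by abel
      rw [this]; exact M.sub_mem e1 e2
    have e0 : A0.card * (A0.card - 1) = A0.offDiag.card := by
      rw [Finset.offDiag_card, Nat.mul_sub, mul_one]
    have e1 : A1.card * (A1.card - 1) = A1.offDiag.card := by
      rw [Finset.offDiag_card, Nat.mul_sub, mul_one]
    rw [e0, e1, ← Finset.card_union_of_disjoint hd]
    have e2 : F.card - 1 = (F.erase 0).card := by
      rw [Finset.card_erase_of_mem ((hF 0).mpr M.zero_mem)]
    rw [e2]
    apply Finset.card_le_card_of_injOn (fun p => p.1 - p.2)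
    · rintro ⟨u, v⟩ hp
      rw [Finset.mem_coe, Finset.mem_union, Finset.mem_offDiag, Finset.mem_offDiag] at hp
      simp only [Finset.coe_erase, Set.mem_sdiff, Finset.mem_coe, Set.mem_singleton_iff]
      rcases hp with ⟨h1, h2, h3⟩ | ⟨h1, h2, h3⟩
      · refine ⟨(hF _).mpr (M.sub_mem (Finset.mem_filter.mp h1).2 (Finset.mem_filter.mp h2).2), ?_⟩
        exact fun h => h3 (sub_eq_zero.mp h)
      · refine ⟨(hF _).mpr ?_, fun h => h3 (sub_eq_zero.mp h)⟩
        have := M.sub_mem (Finset.mem_filter.mp h1).2 (Finset.mem_filter.mp h2).2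
        simpa using this
    · rintro ⟨u, v⟩ hp ⟨u', v'⟩ hp' heq
      simp only at heq
      rw [Finset.mem_coe, Finset.mem_union, Finset.mem_offDiag, Finset.mem_offDiag] at hp hp'
      have hA0s : ∀ z ∈ A0, z ∈ A := fun z hz => (Finset.mem_filter.mp hz).1
      have hA1s : ∀ z ∈ A1, z ∈ A := fun z hz => (Finset.mem_filter.mp hz).1
      have huv : u ∈ A ∧ v ∈ A ∧ u ≠ v := by
        rcases hp with ⟨h1, h2, h3⟩ | ⟨h1, h2, h3⟩
        · exact ⟨hA0s _ h1, hA0s _ h2, h3⟩
        · exact ⟨hA1s _ h1, hA1s _ h2, h3⟩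
      have huv' : u' ∈ A ∧ v' ∈ A ∧ u' ≠ v' := by
        rcases hp' with ⟨h1, h2, h3⟩ | ⟨h1, h2, h3⟩
        · exact ⟨hA0s _ h1, hA0s _ h2, h3⟩
        · exact ⟨hA1s _ h1, hA1s _ h2, h3⟩
      have hg : u - v ≠ 0 := fun h => huv.2.2 (sub_eq_zero.mp h)
      have hle := hA (u - v) hg
      rw [Finset.card_le_one] at hle
      have m1 : u ∈ A ∩ ((u - v) +ᵥ A) := by
        rw [Finset.mem_inter, Finset.mem_vadd_finset]
        exact ⟨huv.1, v, huv.2.1, by simp⟩
      have m2 : u' ∈ A ∩ ((u - v) +ᵥ A) := by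
        rw [Finset.mem_inter, Finset.mem_vadd_finset]
        exact ⟨huv'.1, v', huv'.2.1, by rw [heq]; simp⟩
      have e : u = u' := hle u m1 u' m2
      subst e
      have : v = v' := by
        have := heq
        simpa using this
      rw [this]
  have hle0 : A0.card ≤ F.card := Finset.card_le_card (by
    intro a ha; rw [hF]; exact (Finset.mem_filter.mp ha).2)
  have hle1 : A1.card ≤ F.card := by
    have : A1 ⊆ y +ᵥ F := by
      intro a ha
      rw [Finset.mem_vadd_finset]
      exact ⟨a - y, (hF _).mpr (Finset.mem_filter.mp ha).2, by simp⟩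
    have h := Finset.card_le_card this
    rwa [Finset.card_vadd_finset] at h
  have hAle : A.card ≤ (F + A).card := by
    apply Finset.card_le_card
    intro a ha
    rw [Finset.mem_add]
    exact ⟨0, (hF 0).mpr M.zero_mem, a, ha, by simp⟩
  set a0 := A0.card
  set a1 := A1.card
  set m := F.card
  have hs : m + 1 ≤ a0 + a1 := by omega
  obtain ⟨p, hp⟩ := Nat.exists_eq_add_of_le hc0
  obtain ⟨q, hq⟩ := Nat.exists_eq_add_of_le hc1
  rw [hp, hq] at hpairs
  simp only [Nat.add_sub_cancel_left] at hpairs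
  have h1 : (1 + p) * p + (1 + q) * q + 1 ≤ m := by omega
  have h2 : m + 1 ≤ (1 + p) + (1 + q) := by omega
  have h3 : p * p + q * q = 0 := by nlinarith
  have hp0 : p = 0 := by nlinarith
  have hq0 : q = 0 := by nlinarith
  omega

end Pool.Agent.MP_8507d5_co
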